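import Pool.Agent.RSV.Defs

/-!
# RSV-LinR (.8h): the linear part of a (6,3)-free hypergraph

`H0 := H.filter (fun e => ∀ f ∈ H, f ≠ e → (e ∩ f).card ≤ 1)`; the other edges are called bad: `e` is bad iff there is `f ∈ H`, `f ≠ e`,
`(e ∩ f).card ≥ 2`; then `(e ∪ f).card ≤ 4`, and every third edge `g ∈ H` (`g ≠ e`, `g ≠ f`) is disjoint from
`e ∪ f`: otherwise `(e ∪ f ∪ g).card ≤ 4 + 3 - 1 = 6`, contradiction to `NoTri`.
-/

set_option autoImplicit false

namespace Pool.Agent.RSV

open Finset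

private theorem lr_key {V : Type*} [DecidableEq V] {H : Finset (Finset V)} (h3 : Three H)
    (hN : NoTri H) {e f g : Finset V} (he : e ∈ H) (hf : f ∈ H) (hg : g ∈ H) (hef : e ≠ f)
    (hfg : f ≠ g) (heg : e ≠ g) (h2 : 2 ≤ (e ∩ f).card) {v : V} (hv : v ∈ e ∪ f) : v ∉ g := by
  intro hvg
  have h1 := hN e he f hf g hg hef hfg heg
  have h4 := card_union_add_card_inter e f
  have h5 := card_union_add_card_inter (e ∪ f) g
  have h6 : 1 ≤ ((e ∪ f) ∩ g).card := card_pos.2 ⟨v, mem_inter.2 ⟨hv, hvg⟩⟩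
  have := h3 e he
  have := h3 f hf
  have := h3 g hg
  omega

theorem lin_part {V : Type*} [DecidableEq V] [Fintype V] {H : Finset (Finset V)} (h3 : Three H)
    (hN : NoTri H) : ∃ H0 ⊆ H, Linear H0 ∧ 3 * H.card ≤ 3 * H0.card + 2 * Fintype.card V ∧
      ∀ v : V, (∃ e ∈ H0, v ∈ e) → nb H0 v = nb H v := by
  classical
  set P : Finset V → Prop := fun e => ∀ f ∈ H, f ≠ e → (e ∩ f).card ≤ 1 with hP
  have hbad : ∀ e, ¬ P e → ∃ f ∈ H, f ≠ e ∧ 2 ≤ (e ∩ f).card := by
    intro e he
    simp only [hP] at he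
    push Not at he
    obtain ⟨f, hf, hfe, h⟩ := he
    exact ⟨f, hf, hfe, h⟩
  refine ⟨H.filter P, filter_subset _ _, ?_, ?_, ?_⟩
  · intro e he f hf hef
    exact (mem_filter.1 he).2 f (mem_filter.1 hf).1 (Ne.symm hef)
  · have hsplit := card_filter_add_card_filter_not (s := H) P
    have hdc : ∑ e ∈ H.filter (fun e => ¬ P e), e.card =
        ∑ v : V, ((H.filter (fun e => ¬ P e)).filter (fun e => v ∈ e)).card := by
      have h1 : ∀ e ∈ H.filter (fun e => ¬ P e), e.card = ∑ v : V, if v ∈ e then 1 else 0 := by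
        intro e _
        rw [sum_boole]
        simp
      rw [sum_congr rfl h1, sum_comm]
      refine sum_congr rfl fun v _ => ?_
      rw [sum_boole]
      simp
    have h3c : ∑ e ∈ H.filter (fun e => ¬ P e), e.card = 3 * (H.filter (fun e => ¬ P e)).card := by
      rw [sum_congr rfl (fun e he => h3 e (mem_filter.1 he).1), sum_const, smul_eq_mul, mul_comm]
    have hle : ∀ v : V, ((H.filter (fun e => ¬ P e)).filter (fun e => v ∈ e)).card ≤ 2 := by
      intro v
      by_contra hcon
      rw [not_le] at hcon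
      obtain ⟨e, f', g, he, hf', hg, hef, heg, hfg⟩ := two_lt_card_iff.1 hcon
      rw [mem_filter, mem_filter] at he hf' hg
      obtain ⟨f, hf, hfe, h2⟩ := hbad e he.1.2
      rcases eq_or_ne f f' with h | h
      · have h' : f ≠ g := by rw [h]; exact hfg
        exact lr_key h3 hN he.1.1 hf hg.1.1 (Ne.symm hfe) h' heg h2
          (mem_union_left _ he.2) hg.2
      · exact lr_key h3 hN he.1.1 hf hf'.1.1 (Ne.symm hfe) h hef h2
          (mem_union_left _ he.2) hf'.2
    have h4 : ∑ v : V, ((H.filter (fun e => ¬ P e)).filter (fun e => v ∈ e)).card ≤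
        ∑ _v : V, 2 := sum_le_sum fun v _ => hle v
    rw [sum_const, smul_eq_mul, card_univ] at h4
    omega
  · rintro v ⟨e, he, hve⟩
    have hgood : ∀ g ∈ H, v ∈ g → g ∈ H.filter P := by
      intro g hg hvg
      rw [mem_filter]
      refine ⟨hg, ?_⟩
      by_contra hPg
      obtain ⟨f, hf, hfg, h2⟩ := hbad g hPg
      have heP := (mem_filter.1 he).2
      have heg : e ≠ g := by
        rintro rfl
        exact hPg heP
      have hef : e ≠ f := by
        rintro rfl
        have := heP g hg (Ne.symm heg)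
        rw [inter_comm] at this
        omega
      exact lr_key h3 hN hg hf (mem_filter.1 he).1 (Ne.symm hfg) (Ne.symm hef) (Ne.symm heg) h2
        (mem_union_left _ hvg) hve
    ext u
    simp only [nb, mem_filter, mem_univ, true_and]
    constructor
    · rintro ⟨h, g, hg, hu, hv⟩
      exact ⟨h, g, hg.1, hu, hv⟩
    · rintro ⟨h, g, hg, hu, hv⟩
      exact ⟨h, g, mem_filter.1 (hgood g hg hv), hu, hv⟩

end Pool.Agent.RSV
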