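import Pool.Agent.RSV.CDefs

/-!
# RSV-Adj (.9h): adjacency in the sphere hypergraph

PLAN. `mem_edge`: `u ∈ edge v t ↔ ∃ k, v k (t k) = u`. `nb_hyp`: `u ≠ w` are in a common edge `edge v t`, `t ∈ Cf D r`: `u = v a (t a)`, `w = v b (t b)`, and
`a ≠ b` as `u ≠ w`. `adj_iff`: if `v a x`, `v b y` are in the edge of `t` then `v a x = v k (t k)`, so `k = a`, `t a = x` (`VInj`), also `t b = y`, and
`t c = -(x + y)` for `c = -(a + b)` (`sum_third`), so `sq (x + y) = r c` (`mem_Sph`, `sq_neg`), and `sq_add`, `sq x = r a`, `sq y = r b`. Conversely put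
`t := Function.update (Function.update (fun _ => -(x + y)) a x) b y` (or `fun k => if k = a then x else if k = b then y else -(x + y)`): `t ∈ Cf D r`
(`mem_Cf`; `sum_third`; for `k ≠ a, b`: `k = -(a + b)` by `eq_third`) and `v a x ≠ v b y` by `VInj` and `a ≠ b`. `adj_same`: two vertices of the same part `a`
in a common edge are both `v a (t a)`, so they are equal.
-/

set_option autoImplicit false

namespace Pool.Agent.RSV

open Finset

variable {V : Type*} [DecidableEq V] [Fintype V] {D : ℕ} {r : Fin 3 → ℕ}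
  {v : Fin 3 → (Fin D → ℤ) → V}

omit [Fintype V] in
private theorem adj_mem_edge {t : Fin 3 → Fin D → ℤ} {u : V} :
    u ∈ edge v t ↔ ∃ k, v k (t k) = u := by
  unfold edge
  rw [mem_image]
  constructor
  · rintro ⟨k, -, h⟩
    exact ⟨k, h⟩
  · rintro ⟨k, h⟩
    exact ⟨k, mem_univ _, h⟩

private theorem adj_mem_nb {u w : V} :
    u ∈ nb (hyp r v) w ↔ u ≠ w ∧ ∃ t ∈ Cf D r, (∃ k, v k (t k) = u) ∧ ∃ k, v k (t k) = w := by
  unfold nb hyp
  rw [mem_filter]
  constructor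
  · rintro ⟨-, h1, e, he, h2, h3⟩
    obtain ⟨t, ht, rfl⟩ := mem_image.1 he
    exact ⟨h1, t, ht, adj_mem_edge.1 h2, adj_mem_edge.1 h3⟩
  · rintro ⟨h1, t, ht, h2, h3⟩
    exact ⟨mem_univ _, h1, edge v t, mem_image_of_mem _ ht, adj_mem_edge.2 h2, adj_mem_edge.2 h3⟩

theorem nb_hyp {u w : V} (h : u ∈ nb (hyp r v) w) : ∃ (a b : Fin 3) (x y : Fin D → ℤ), a ≠ b ∧
    u = v a x ∧ w = v b y ∧ x ∈ Sph D (r a) ∧ y ∈ Sph D (r b) := by
  obtain ⟨huw, t, ht, ⟨a, ha⟩, ⟨b, hb⟩⟩ := adj_mem_nb.1 h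
  have h1 := (mem_Cf.1 ht).1
  refine ⟨a, b, t a, t b, ?_, ha.symm, hb.symm, h1 a, h1 b⟩
  rintro rfl
  exact huw (ha.symm.trans hb)

theorem adj_iff (hv : VInj r v) {a b : Fin 3} (hab : a ≠ b) {x y : Fin D → ℤ}
    (hx : x ∈ Sph D (r a)) (hy : y ∈ Sph D (r b)) :
    v a x ∈ nb (hyp r v) (v b y) ↔ 2 * ip x y = (r (-(a + b)) : ℤ) - r a - r b := by
  have hsx := mem_Sph.1 hx
  have hsy := mem_Sph.1 hy
  have hadd := sq_add x y
  obtain ⟨hca, hcb⟩ := third_ne a b hab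
  constructor
  · intro h
    obtain ⟨-, t, ht, ⟨k, hk⟩, ⟨l, hl⟩⟩ := adj_mem_nb.1 h
    obtain ⟨h1, h2⟩ := mem_Cf.1 ht
    obtain ⟨rfl, h3⟩ := hv k a (t k) x (h1 k) hx hk
    obtain ⟨rfl, h4⟩ := hv l b (t l) y (h1 l) hy hl
    rw [sum_third t hab, h3, h4] at h2
    have h5 : t (-(k + l)) = -(x + y) := by
      rw [add_comm] at h2
      exact eq_neg_of_add_eq_zero_left h2
    have h6 := mem_Sph.1 (h1 (-(k + l)))
    rw [h5, sq_neg, hadd, hsx, hsy] at h6
    linarith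
  · intro h
    have hs : sq (-(x + y)) = (r (-(a + b)) : ℤ) := by
      rw [sq_neg, hadd, hsx, hsy]
      linarith
    refine adj_mem_nb.2 ⟨?_, fun k => if k = a then x else if k = b then y else -(x + y), ?_,
      ⟨a, ?_⟩, ⟨b, ?_⟩⟩
    · intro h1
      exact hab (hv a b x y hx hy h1).1
    · rw [mem_Cf]
      constructor
      · intro k
        by_cases hka : k = a
        · rw [if_pos hka, hka]
          exact hx
        · rw [if_neg hka]
          by_cases hkb : k = b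
          · rw [if_pos hkb, hkb]
            exact hy
          · rw [if_neg hkb, eq_third a b k hab hka hkb]
            exact mem_Sph.2 hs
      · rw [sum_third _ hab, if_pos rfl, if_neg hab.symm, if_pos rfl, if_neg hca, if_neg hcb]
        exact add_neg_cancel _
    · show v a (if a = a then x else if a = b then y else -(x + y)) = v a x
      rw [if_pos rfl]
    · show v b (if b = a then x else if b = b then y else -(x + y)) = v b y
      rw [if_neg hab.symm, if_pos rfl]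

theorem adj_same (hv : VInj r v) {a : Fin 3} {x y : Fin D → ℤ}
    (hx : x ∈ Sph D (r a)) (hy : y ∈ Sph D (r a)) : v a x ∉ nb (hyp r v) (v a y) := by
  intro h
  obtain ⟨hne, t, ht, ⟨k, hk⟩, ⟨l, hl⟩⟩ := adj_mem_nb.1 h
  obtain ⟨h1, -⟩ := mem_Cf.1 ht
  obtain ⟨rfl, h3⟩ := hv k a (t k) x (h1 k) hx hk
  obtain ⟨rfl, h4⟩ := hv l k (t l) y (h1 l) hy hl
  apply hne
  rw [← h3, ← h4]

end Pool.Agent.RSV
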