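import Pool.Agent.RSV.Defs

/-!
# RSV-HD: many vertices of high degree
-/

set_option autoImplicit false

namespace Pool.Agent.RSV

open Finset

variable {V : Type*} [DecidableEq V] [Fintype V] {H : Finset (Finset V)}

theorem deg_sum (h3 : Three H) : ∑ v, deg H v = 3 * H.card := by
  unfold deg
  calc ∑ v, (H.filter (fun e => v ∈ e)).card = ∑ v, ∑ e ∈ H, if v ∈ e then 1 else 0 :=
        sum_congr rfl fun v _ => card_filter _ _
    _ = ∑ e ∈ H, ∑ v, if v ∈ e then 1 else 0 := sum_comm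
    _ = ∑ e ∈ H, 3 := sum_congr rfl fun e he => by
        rw [← card_filter, filter_mem_eq_inter, univ_inter, h3 e he]
    _ = 3 * H.card := by rw [sum_const, smul_eq_mul, mul_comm]

theorem deg_le (h3 : Three H) (hL : Linear H) (v : V) : 2 * deg H v ≤ Fintype.card V := by
  have hdisj : ∀ e ∈ H.filter (fun e => v ∈ e), ∀ f ∈ H.filter (fun e => v ∈ e), e ≠ f →
      Disjoint (e.erase v) (f.erase v) := by
    intro e he f hf hne
    obtain ⟨heH, hve⟩ := mem_filter.1 he
    obtain ⟨hfH, hvf⟩ := mem_filter.1 hf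
    rw [disjoint_left]
    intro u hu hu'
    obtain ⟨huv, hue⟩ := mem_erase.1 hu
    have huf := (mem_erase.1 hu').2
    have h1 : ({u, v} : Finset V) ⊆ e ∩ f := by
      intro x hx
      rw [mem_insert, mem_singleton] at hx
      rcases hx with rfl | rfl
      · exact mem_inter.2 ⟨hue, huf⟩
      · exact mem_inter.2 ⟨hve, hvf⟩
    have h2 := card_le_card h1
    rw [card_pair huv] at h2
    have h4 := hL e heH f hfH hne
    omega
  have h1 := card_biUnion hdisj
  have h2 : ∑ e ∈ H.filter (fun e => v ∈ e), (e.erase v).card = 2 * deg H v := by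
    calc ∑ e ∈ H.filter (fun e => v ∈ e), (e.erase v).card = ∑ e ∈ H.filter (fun e => v ∈ e), 2 :=
          sum_congr rfl fun e he => by
            obtain ⟨heH, hve⟩ := mem_filter.1 he
            rw [card_erase_of_mem hve, h3 e heH]
      _ = _ := by rw [sum_const, smul_eq_mul, mul_comm]; rfl
  rw [← h2, ← h1]
  exact card_le_univ _

open Classical in
theorem many_high (h3 : Three H) (hL : Linear H) {δ : ℝ} (hδ : 0 ≤ δ)
    (hH : (H.card : ℝ) = δ * (Fintype.card V : ℝ) ^ 2) :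
    4 * δ * (Fintype.card V : ℝ) ≤
      ((univ.filter (fun v : V => δ * (Fintype.card V : ℝ) ≤ (deg H v : ℝ))).card : ℝ) := by
  obtain ⟨N, hN⟩ : ∃ N : ℕ, N = Fintype.card V := ⟨_, rfl⟩
  rw [← hN] at hH ⊢
  obtain ⟨Hi, hHi⟩ : ∃ Hi : Finset V,
      Hi = univ.filter (fun v : V => δ * (N : ℝ) ≤ (deg H v : ℝ)) := ⟨_, rfl⟩
  rw [← hHi]
  have hN0 : (0 : ℝ) ≤ N := Nat.cast_nonneg _
  rcases hN0.eq_or_lt with h0 | h0
  · rw [← h0, mul_zero]
    exact Nat.cast_nonneg _
  have h1 : (3 : ℝ) * H.card = ∑ v : V, (deg H v : ℝ) := by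
    have := deg_sum h3
    rw [← Nat.cast_sum, this]
    push_cast
    rfl
  have h2 : ∀ v : V, (deg H v : ℝ) ≤ (if v ∈ Hi then (N : ℝ) / 2 else 0) + δ * N := fun v => by
    have h4 := deg_le h3 hL v
    rw [← hN] at h4
    have h5 : (2 : ℝ) * (deg H v : ℝ) ≤ N := by exact_mod_cast h4
    have h6 : 0 ≤ δ * N := mul_nonneg hδ hN0
    by_cases hv : v ∈ Hi
    · rw [if_pos hv]
      linarith
    · rw [if_neg hv, zero_add]
      rw [hHi, mem_filter] at hv
      by_contra hcon
      push Not at hcon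
      exact hv ⟨mem_univ _, hcon.le⟩
  have h3' : ∑ v : V, (deg H v : ℝ) ≤ Hi.card * ((N : ℝ) / 2) + N * (δ * N) := by
    refine (sum_le_sum fun v _ => h2 v).trans (le_of_eq ?_)
    rw [sum_add_distrib, sum_const, nsmul_eq_mul, card_univ, ← hN, sum_ite_mem, univ_inter,
      sum_const, nsmul_eq_mul]
  rw [← h1, hH] at h3'
  have h7 : (4 * δ * N) * N ≤ (Hi.card : ℝ) * N := by nlinarith
  exact le_of_mul_le_mul_right h7 h0

end Pool.Agent.RSV
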