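import Mathlib

/-!
# RSV-NumA (.4h): solving the inequality (A)

PLAN. `numA`: multiply by `δ^d`: `4 n δ^(d+1) ≤ (3 log n)^d ≤ 4 (3 log n)^(d+1)` (as `3 log n ≥ 3 log 2 > 1`), so `δ^(d+1) ≤ (3 log n)^(d+1) / n`, take
`(d+1)`-th roots: `δ ≤ 3 log n * n^(-1/(d+1))` (e.g. compare `(d+1)`-th powers: `pow_le_pow_left₀` contrapositive, `Real.rpow_natCast_mul`), multiply by `n²`
(`Real.rpow_add`, `Real.rpow_natCast`).
`sA`: `s = ⌊2 log n/δ⌋₊ + 1`: `δ s > 2 log n`, `exp (-(δ s)) < n^(-2)`; `s + 1 ≤ 2 log n/δ + 2 ≤ 3 log n/δ` because `2 ≤ log n/δ` (`log n ≥ log 2 > 2/3`,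
`1/δ ≥ 6`... precisely `2 δ ≤ 1/3 < log n`).
-/

set_option autoImplicit false

namespace Pool.Agent.RSV

private theorem numA_log {n : ℕ} (hn : 2 ≤ n) : 2 / 3 < Real.log n := by
  have h1 : Real.log 2 ≤ Real.log n := Real.log_le_log (by norm_num) (by exact_mod_cast hn)
  have h2 := Real.log_two_gt_d9
  linarith

theorem numA {n d : ℕ} (hn : 2 ≤ n) {δ : ℝ} (hδ : 0 < δ)
    (h : 4 * δ * n ≤ (3 * Real.log n / δ) ^ d) :
    δ * (n : ℝ) ^ 2 ≤ 3 * (n : ℝ) ^ (2 - 1 / ((d : ℝ) + 1)) * Real.log n := by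
  have hn0 : (0 : ℝ) < n := by
    have : 0 < n := by omega
    exact_mod_cast this
  have hL : 2 / 3 < Real.log n := numA_log hn
  have hP : 1 ≤ 3 * Real.log n := by linarith
  have h1 : 4 * δ * n * δ ^ d ≤ (3 * Real.log n) ^ d := by
    rw [div_pow, le_div_iff₀ (by positivity)] at h
    exact h
  have h2 : δ ^ (d + 1) ≤ (3 * Real.log n) ^ (d + 1) * (n : ℝ)⁻¹ := by
    rw [← div_eq_mul_inv, le_div_iff₀ hn0]
    have h3 : δ ^ (d + 1) * n ≤ 4 * δ * n * δ ^ d := by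
      have h4 : 0 < δ ^ (d + 1) * n := by positivity
      have h5 : 4 * δ * n * δ ^ d = 4 * (δ ^ (d + 1) * n) := by ring
      rw [h5]
      linarith
    exact h3.trans (h1.trans (pow_le_pow_right₀ hP (by omega)))
  have hr : ((n : ℝ) ^ (-(1 / ((d : ℝ) + 1)))) ^ (d + 1) = (n : ℝ)⁻¹ := by
    rw [← Real.rpow_natCast, ← Real.rpow_mul hn0.le]
    have h3 : -(1 / ((d : ℝ) + 1)) * ((d + 1 : ℕ) : ℝ) = -1 := by
      push_cast
      have : (d : ℝ) + 1 ≠ 0 := by positivity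
      field_simp
    rw [h3, Real.rpow_neg_one]
  have h3 : δ ^ (d + 1) ≤ (3 * Real.log n * (n : ℝ) ^ (-(1 / ((d : ℝ) + 1)))) ^ (d + 1) := by
    rw [mul_pow, hr]
    exact h2
  have h4 : δ ≤ 3 * Real.log n * (n : ℝ) ^ (-(1 / ((d : ℝ) + 1))) :=
    le_of_pow_le_pow_left₀ (by omega) (by positivity) h3
  have h5 : (n : ℝ) ^ (2 - 1 / ((d : ℝ) + 1)) =
      (n : ℝ) ^ 2 * (n : ℝ) ^ (-(1 / ((d : ℝ) + 1))) := by
    rw [sub_eq_add_neg, Real.rpow_add hn0, Real.rpow_two]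
  rw [h5]
  have h6 := mul_le_mul_of_nonneg_right h4 (by positivity : (0 : ℝ) ≤ (n : ℝ) ^ 2)
  calc δ * (n : ℝ) ^ 2 ≤ 3 * Real.log n * (n : ℝ) ^ (-(1 / ((d : ℝ) + 1))) * (n : ℝ) ^ 2 := h6
    _ = 3 * ((n : ℝ) ^ 2 * (n : ℝ) ^ (-(1 / ((d : ℝ) + 1)))) * Real.log n := by ring

theorem sA {n : ℕ} (hn : 2 ≤ n) {δ : ℝ} (hδ : 0 < δ) (hδ' : δ ≤ 1 / 6) : ∃ s : ℕ,
    (n : ℝ) ^ 2 * Real.exp (-(δ * s)) < 1 ∧ (s : ℝ) + 1 ≤ 3 * Real.log n / δ := by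
  have hn0 : (0 : ℝ) < n := by
    have : 0 < n := by omega
    exact_mod_cast this
  have hL : 2 / 3 < Real.log n := numA_log hn
  refine ⟨⌊2 * Real.log n / δ⌋₊ + 1, ?_, ?_⟩
  · have h1 : 2 * Real.log n / δ < ((⌊2 * Real.log n / δ⌋₊ + 1 : ℕ) : ℝ) := by
      push_cast
      exact Nat.lt_floor_add_one _
    rw [div_lt_iff₀ hδ] at h1
    have h2 : Real.exp (-(δ * ((⌊2 * Real.log n / δ⌋₊ + 1 : ℕ) : ℝ))) < Real.exp (-(2 * Real.log n)) := by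
      apply Real.exp_lt_exp.2
      linarith
    have h3 : Real.exp (-(2 * Real.log n)) = 1 / (n : ℝ) ^ 2 := by
      rw [Real.exp_neg, two_mul, Real.exp_add, Real.exp_log hn0, sq, one_div]
    calc (n : ℝ) ^ 2 * Real.exp (-(δ * ((⌊2 * Real.log n / δ⌋₊ + 1 : ℕ) : ℝ)))
        < (n : ℝ) ^ 2 * (1 / (n : ℝ) ^ 2) := by
          rw [← h3]
          exact mul_lt_mul_of_pos_left h2 (by positivity)
      _ = 1 := by field_simp
  · push_cast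
    have h1 := Nat.floor_le (by positivity : 0 ≤ 2 * Real.log n / δ)
    have h2 : 2 ≤ Real.log n / δ := by
      rw [le_div_iff₀ hδ]
      linarith
    have h3 : 3 * Real.log n / δ = 2 * Real.log n / δ + Real.log n / δ := by ring
    rw [h3]
    linarith

end Pool.Agent.RSV
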