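import Pool.Agent.RSV.Defs

/-!
# RSV-Pk (.7h): packing lemma (random sampling and Sauer-Shelah)

PLAN. Adapt `sauer` and `sample` of `Pool/Agent/Helper52/VC/Pack.lean` (read it: `outputs/live/Pool/Agent/Helper52/VC/Pack.lean`) from `Finset ℕ` and `Icc 1 N` to
`Finset V` and `univ : Finset V`. (1) `sauer`: for `𝒜 : Finset (Finset V)`, `S : Finset V`:
`(𝒜.image (fun u => u ∩ S)).card ≤ (S.card + 1) ^ 𝒜.vcDim` (`card_le_card_shatterer`, every shattered set of the traces is a subset of `S` shattered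
by `𝒜`, so it has at most `vcDim` elements; `∑ i ∈ range (D + 1), s.choose i ≤ (s + 1) ^ D`). (2) `sample`: among the `(card V)^s` functions
`z : Fin s → V` less than all do not separate a given pair (`1 - ρ ≤ exp (-ρ)`), union bound over the pairs; so some `S` (image of `z`, `S.card ≤ s`)
separates all pairs: `x ↦ F x ∩ S` is injective on `X`. (3) `X.card = ((X.image F).image (· ∩ S)).card ≤ (S.card + 1) ^ vcDim ≤ (s + 1) ^ d`.
(If `X.card ≤ 1` the claim is clear; if `X` has two different elements then `V` is nonempty because of `hsep` (for `ρ ≥ 0`).)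
-/

set_option autoImplicit false

namespace Pool.Agent.RSV

open Finset

private theorem pk_sum_choose_le (s D : ℕ) : ∑ i ∈ range (D + 1), s.choose i ≤ (s + 1) ^ D := by
  rw [add_pow]
  refine sum_le_sum fun i hi => ?_
  rw [one_pow, mul_one]
  have h1 : s.choose i ≤ s ^ i := Nat.choose_le_pow s i
  have h2 : 1 ≤ D.choose i := Nat.choose_pos (by
    rw [mem_range] at hi
    omega)
  exact h1.trans (Nat.le_mul_of_pos_right _ h2)

private theorem pk_sauer {V : Type*} [DecidableEq V] (𝒜 : Finset (Finset V)) (S : Finset V) :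
    (𝒜.image (fun u => u ∩ S)).card ≤ (S.card + 1) ^ 𝒜.vcDim := by
  refine (card_le_card_shatterer _).trans ?_
  have h1 : (𝒜.image (fun u => u ∩ S)).shatterer ⊆
      (range (𝒜.vcDim + 1)).biUnion (fun i => powersetCard i S) := by
    intro T hT
    rw [mem_shatterer] at hT
    have hTS : T ⊆ S := by
      obtain ⟨u, hu, h⟩ := hT.exists_superset
      rw [mem_image] at hu
      obtain ⟨v, _, rfl⟩ := hu
      exact h.trans inter_subset_right
    have hTA : 𝒜.Shatters T := by
      intro t ht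
      obtain ⟨u, hu, h⟩ := hT ht
      rw [mem_image] at hu
      obtain ⟨v, hv, rfl⟩ := hu
      refine ⟨v, hv, ?_⟩
      rw [← h]
      ext y
      simp only [mem_inter]
      constructor
      · rintro ⟨h1, h2⟩
        exact ⟨h1, h2, hTS h1⟩
      · rintro ⟨h1, h2, _⟩
        exact ⟨h1, h2⟩
    rw [mem_biUnion]
    refine ⟨T.card, ?_, ?_⟩
    · rw [mem_range]
      have := hTA.card_le_vcDim
      omega
    · rw [mem_powersetCard]
      exact ⟨hTS, rfl⟩
  refine (card_le_card h1).trans (card_biUnion_le.trans ?_)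
  simp only [card_powersetCard]
  exact pk_sum_choose_le _ _

private theorem pk_sample {ι V : Type*} [DecidableEq V] [Fintype V] [Nonempty V] (F : ι → Finset V)
    (X : Finset ι) {ρ : ℝ}
    (hsep : ∀ x ∈ X, ∀ x' ∈ X, x ≠ x' →
      ρ * (Fintype.card V : ℝ) < ((symmDiff (F x) (F x')).card : ℝ)) (s : ℕ)
    (hs : (X.card : ℝ) ^ 2 * Real.exp (-(ρ * s)) < 1) :
    ∃ S : Finset V, S.card ≤ s ∧ Set.InjOn (fun x => F x ∩ S) (X : Set ι) := by
  classical
  obtain ⟨N, hNdef⟩ : ∃ N : ℕ, N = Fintype.card V := ⟨_, rfl⟩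
  have hN : 0 < N := hNdef ▸ Fintype.card_pos
  rw [← hNdef] at hsep
  have hN' : (0 : ℝ) < N := by exact_mod_cast hN
  obtain ⟨Z, hZ⟩ : ∃ Z, Z = Fintype.piFinset (fun _ : Fin s => (univ : Finset V)) := ⟨_, rfl⟩
  obtain ⟨W, hW⟩ : ∃ W : ι × ι → Finset (Fin s → V), ∀ w, W w =
      Fintype.piFinset (fun _ : Fin s => univ \ symmDiff (F w.1) (F w.2)) := ⟨_, fun _ => rfl⟩
  have hZc : Z.card = N ^ s := by
    rw [hZ, Fintype.card_piFinset, prod_const, card_univ, card_univ, Fintype.card_fin, hNdef]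
  have hWc : ∀ w ∈ X.offDiag, ((W w).card : ℝ) ≤ Real.exp (-(ρ * s)) * (N : ℝ) ^ s := by
    intro w hw
    rw [mem_offDiag] at hw
    obtain ⟨h1, h2, h3⟩ := hw
    have hsub : symmDiff (F w.1) (F w.2) ⊆ univ := subset_univ _
    rw [hW, Fintype.card_piFinset, prod_const, card_univ, Fintype.card_fin,
      card_sdiff_of_subset hsub, card_univ, ← hNdef]
    have h4 := hsep _ h1 _ h2 h3
    have h5 := card_le_card hsub
    rw [card_univ, ← hNdef] at h5
    rw [Nat.cast_pow, Nat.cast_sub h5]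
    have h6 : (N : ℝ) - (symmDiff (F w.1) (F w.2)).card ≤ Real.exp (-ρ) * N := by
      have h7 : 1 - ρ ≤ Real.exp (-ρ) := by
        have := Real.add_one_le_exp (-ρ)
        linarith
      have h8 := mul_le_mul_of_nonneg_right h7 hN'.le
      linarith
    have h7 : (0 : ℝ) ≤ (N : ℝ) - (symmDiff (F w.1) (F w.2)).card := by
      have : ((symmDiff (F w.1) (F w.2)).card : ℝ) ≤ N := by exact_mod_cast h5
      linarith
    refine (pow_le_pow_left₀ h7 h6 s).trans (le_of_eq ?_)
    rw [mul_pow, ← Real.exp_nat_mul]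
    congr 2
    ring
  have hex : ∃ z ∈ Z, z ∉ X.offDiag.biUnion W := by
    by_contra hcon
    push Not at hcon
    have h1 : Z ⊆ X.offDiag.biUnion W := hcon
    have h2 := (card_le_card h1).trans card_biUnion_le
    rw [hZc] at h2
    have h3 : (N : ℝ) ^ s ≤ ∑ w ∈ X.offDiag, ((W w).card : ℝ) := by exact_mod_cast h2
    have h4 : ∑ w ∈ X.offDiag, ((W w).card : ℝ) ≤
        X.offDiag.card * (Real.exp (-(ρ * s)) * (N : ℝ) ^ s) := by
      rw [← nsmul_eq_mul]
      exact sum_le_card_nsmul _ _ _ hWc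
    have h5 : (X.offDiag.card : ℝ) ≤ (X.card : ℝ) ^ 2 := by
      have h6 : X.offDiag.card ≤ X.card ^ 2 := by
        rw [offDiag_card, sq]
        exact Nat.sub_le _ _
      exact_mod_cast h6
    have h6 : (0 : ℝ) < (N : ℝ) ^ s := by positivity
    have h7 : (X.offDiag.card : ℝ) * (Real.exp (-(ρ * s)) * (N : ℝ) ^ s) ≤
        (X.card : ℝ) ^ 2 * (Real.exp (-(ρ * s)) * (N : ℝ) ^ s) :=
      mul_le_mul_of_nonneg_right h5 (by positivity)
    have h8 : (X.card : ℝ) ^ 2 * (Real.exp (-(ρ * s)) * (N : ℝ) ^ s) < 1 * (N : ℝ) ^ s := by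
      rw [← mul_assoc]
      exact mul_lt_mul_of_pos_right hs h6
    linarith
  obtain ⟨z, hz, hzW⟩ := hex
  refine ⟨univ.image z, ?_, ?_⟩
  · refine card_image_le.trans ?_
    rw [card_univ, Fintype.card_fin]
  · intro x hx x' hx' h
    by_contra hne
    have h1 : z ∉ W (x, x') := by
      intro h2
      exact hzW (mem_biUnion.2 ⟨(x, x'), mem_offDiag.2 ⟨hx, hx', hne⟩, h2⟩)
    rw [hW, Fintype.mem_piFinset] at h1
    push Not at h1
    obtain ⟨i, hi⟩ := h1
    have h2 : z i ∈ symmDiff (F x) (F x') := by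
      by_contra h3
      exact hi (mem_sdiff.2 ⟨mem_univ _, h3⟩)
    have h3 : z i ∈ univ.image z := mem_image_of_mem _ (mem_univ i)
    have h : F x ∩ univ.image z = F x' ∩ univ.image z := h
    rw [mem_symmDiff] at h2
    rcases h2 with ⟨h4, h5⟩ | ⟨h4, h5⟩
    · apply h5
      have h6 : z i ∈ F x ∩ univ.image z := mem_inter.2 ⟨h4, h3⟩
      rw [h] at h6
      exact (mem_inter.1 h6).1
    · apply h5
      have h6 : z i ∈ F x' ∩ univ.image z := mem_inter.2 ⟨h4, h3⟩
      rw [← h] at h6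
      exact (mem_inter.1 h6).1

theorem pack {ι V : Type*} [DecidableEq V] [Fintype V] (F : ι → Finset V) (X : Finset ι) {ρ : ℝ}
    (hρ : 0 ≤ ρ) {s d : ℕ}
    (hsep : ∀ x ∈ X, ∀ x' ∈ X, x ≠ x' →
      ρ * (Fintype.card V : ℝ) < ((symmDiff (F x) (F x')).card : ℝ))
    (hs : (X.card : ℝ) ^ 2 * Real.exp (-(ρ * s)) < 1) (hd : (X.image F).vcDim ≤ d) :
    X.card ≤ (s + 1) ^ d := by
  by_cases hX : X.card ≤ 1
  · exact hX.trans (Nat.one_le_pow _ _ (by omega))
  · push Not at hX
    obtain ⟨x, hx, x', hx', hne⟩ := one_lt_card.1 hX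
    have h1 := hsep x hx x' hx' hne
    have h2 : 0 ≤ ρ * (Fintype.card V : ℝ) := by positivity
    have h3 : (0 : ℝ) < ((symmDiff (F x) (F x')).card : ℝ) := lt_of_le_of_lt h2 h1
    have h4 : 0 < (symmDiff (F x) (F x')).card := by exact_mod_cast h3
    obtain ⟨v, _⟩ := card_pos.1 h4
    haveI : Nonempty V := ⟨v⟩
    obtain ⟨S, hS, hinj⟩ := pk_sample F X hsep s hs
    have h5 : X.card = (X.image (fun x => F x ∩ S)).card := (card_image_of_injOn hinj).symm
    have h6 : X.image (fun x => F x ∩ S) = (X.image F).image (fun u => u ∩ S) := by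
      rw [image_image]
      rfl
    rw [h5, h6]
    refine (pk_sauer _ S).trans ?_
    exact (Nat.pow_le_pow_left (by omega) _).trans (Nat.pow_le_pow_right (by omega) hd)

end Pool.Agent.RSV
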