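import Pool.Agent.RSV.Defs

/-!
# RSV-Sep (1.0h): neighbourhoods in a linear (6,3)-free hypergraph are far apart

Finite sets: the third vertex of the edge through two neighbours.
-/

set_option autoImplicit false

namespace Pool.Agent.RSV

open Finset

variable {V : Type*} [DecidableEq V] [Fintype V] {H : Finset (Finset V)}

omit [Fintype V] in
private theorem sp_lin (hL : Linear H) {e f : Finset V} (he : e ∈ H) (hf : f ∈ H) {x y : V}
    (hxy : x ≠ y) (hxe : x ∈ e) (hye : y ∈ e) (hxf : x ∈ f) (hyf : y ∈ f) : e = f := by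
  by_contra h
  have h1 := hL e he f hf h
  have h2 : ({x, y} : Finset V) ⊆ e ∩ f := by
    intro a ha
    rw [Finset.mem_insert, Finset.mem_singleton] at ha
    rw [Finset.mem_inter]
    rcases ha with rfl | rfl
    · exact ⟨hxe, hxf⟩
    · exact ⟨hye, hyf⟩
  have h3 := Finset.card_le_card h2
  rw [Finset.card_pair hxy] at h3
  omega

omit [Fintype V] in
private theorem sp_third (h3 : Three H) {e : Finset V} (he : e ∈ H) {x y : V}
    (hxy : x ≠ y) (hxe : x ∈ e) (hye : y ∈ e) :
    ∃ z ∈ e, z ≠ x ∧ z ≠ y ∧ ∀ a ∈ e, a = x ∨ a = y ∨ a = z := by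
  have h1 : ((e.erase x).erase y).card = 1 := by
    rw [Finset.card_erase_of_mem (Finset.mem_erase.2 ⟨hxy.symm, hye⟩),
      Finset.card_erase_of_mem hxe, h3 e he]
  obtain ⟨z, hz⟩ := Finset.card_eq_one.1 h1
  have h2 : z ∈ (e.erase x).erase y := by
    rw [hz]
    exact Finset.mem_singleton_self z
  rw [Finset.mem_erase, Finset.mem_erase] at h2
  refine ⟨z, h2.2.2, h2.2.1, h2.1, fun a ha => ?_⟩
  by_cases h4 : a = x
  · exact Or.inl h4
  by_cases h5 : a = y
  · exact Or.inr (Or.inl h5)
  right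
  right
  have h6 : a ∈ (e.erase x).erase y := Finset.mem_erase.2 ⟨h5, Finset.mem_erase.2 ⟨h4, ha⟩⟩
  rw [hz] at h6
  exact Finset.mem_singleton.1 h6

private theorem sp_nb {y x : V} : x ∈ nb H y ↔ x ≠ y ∧ ∃ e ∈ H, x ∈ e ∧ y ∈ e := by
  unfold nb
  rw [Finset.mem_filter]
  exact ⟨fun h => h.2, fun h => ⟨Finset.mem_univ _, h⟩⟩

theorem card_nb (h3 : Three H) (hL : Linear H) (y : V) : (nb H y).card = 2 * deg H y := by
  have h1 : nb H y = (H.filter (fun e => y ∈ e)).biUnion (fun e => e.erase y) := by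
    ext x
    rw [sp_nb, Finset.mem_biUnion]
    constructor
    · rintro ⟨h1, e, he, h2, h4⟩
      exact ⟨e, Finset.mem_filter.2 ⟨he, h4⟩, Finset.mem_erase.2 ⟨h1, h2⟩⟩
    · rintro ⟨e, he, h1⟩
      rw [Finset.mem_filter] at he
      rw [Finset.mem_erase] at h1
      exact ⟨h1.1, e, he.1, h1.2, he.2⟩
  have h2 : ∀ e ∈ H.filter (fun e => y ∈ e), (e.erase y).card = 2 := by
    intro e he
    rw [Finset.mem_filter] at he
    rw [Finset.card_erase_of_mem he.2, h3 e he.1]
  rw [h1, Finset.card_biUnion, Finset.sum_congr rfl h2, Finset.sum_const, smul_eq_mul, mul_comm]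
  · rfl
  · intro e he f hf hef
    rw [Finset.mem_coe, Finset.mem_filter] at he hf
    rw [Function.onFun, Finset.disjoint_left]
    intro a ha hb
    rw [Finset.mem_erase] at ha hb
    exact hef (sp_lin hL he.1 hf.1 ha.1 ha.2 he.2 hb.2 hf.2)

theorem inter_le (h3 : Three H) (hL : Linear H) (hN : NoTri H) {y y' : V} (hy : y ≠ y') :
    (nb H y ∩ nb H y').card ≤ (nb H y \ nb H y').card + 1 := by
  classical
  obtain ⟨W, hW⟩ : ∃ W : Finset V, W = (nb H y ∩ nb H y').filter
    (fun x => ∀ e ∈ H, x ∈ e → y ∈ e → y' ∉ e) := ⟨_, rfl⟩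
  obtain ⟨R, hR⟩ : ∃ R : Finset V, R = (nb H y ∩ nb H y').filter
    (fun x => ¬ ∀ e ∈ H, x ∈ e → y ∈ e → y' ∉ e) := ⟨_, rfl⟩
  have hcard : (nb H y ∩ nb H y').card = W.card + R.card := by
    rw [hW, hR]
    exact (Finset.card_filter_add_card_filter_not _).symm
  have hR1 : R.card ≤ 1 := by
    rw [Finset.card_le_one]
    intro a ha b hb
    rw [hR, Finset.mem_filter, Finset.mem_inter, sp_nb, sp_nb] at ha hb
    obtain ⟨⟨⟨ha1, -⟩, ha2, -⟩, ha3⟩ := ha
    obtain ⟨⟨⟨hb1, -⟩, hb2, -⟩, hb3⟩ := hb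
    push Not at ha3 hb3
    obtain ⟨e, he, hae, hye, hye'⟩ := ha3
    obtain ⟨f, hf, hbf, hyf, hyf'⟩ := hb3
    have h1 := sp_lin hL he hf hy hye hye' hyf hyf'
    rw [← h1] at hbf
    obtain ⟨z, -, -, -, hz⟩ := sp_third h3 he hy hye hye'
    rcases hz a hae with h | h | h
    · exact absurd h ha1
    · exact absurd h ha2
    · rcases hz b hbf with h' | h' | h'
      · exact absurd h' hb1
      · exact absurd h' hb2
      · rw [h, h']
  have hz : ∀ x ∈ W, ∃ z, z ∈ nb H y \ nb H y' ∧ ∃ e ∈ H, x ∈ e ∧ y ∈ e ∧ z ∈ e ∧ z ≠ x ∧ z ≠ y := by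
    intro x hx
    rw [hW, Finset.mem_filter, Finset.mem_inter, sp_nb, sp_nb] at hx
    obtain ⟨⟨⟨hx1, e, he, hxe, hye⟩, hx2, f, hf, hxf, hyf⟩, hx3⟩ := hx
    have hye' := hx3 e he hxe hye
    obtain ⟨z, hze, hzx, hzy, -⟩ := sp_third h3 he hx1 hxe hye
    refine ⟨z, ?_, e, he, hxe, hye, hze, hzx, hzy⟩
    rw [Finset.mem_sdiff, sp_nb, sp_nb]
    refine ⟨⟨hzy, e, he, hze, hye⟩, ?_⟩
    rintro ⟨hzy', g, hg, hzg, hyg⟩
    have hef : e ≠ f := fun h => hye' (by
      rw [h]
      exact hyf)
    have heg : e ≠ g := fun h => hye' (by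
      rw [h]
      exact hyg)
    have hfg : f ≠ g := by
      intro h
      rw [← h] at hzg
      exact hef (sp_lin hL he hf hzx hze hxe hzg hxf)
    have h6 := hN e he f hf g hg hef hfg heg
    have h7 : e ∪ f ∪ g ⊆ e ∪ f.erase x ∪ (g.erase z).erase y' := by
      intro a ha
      rw [Finset.mem_union, Finset.mem_union] at ha ⊢
      rw [Finset.mem_erase, Finset.mem_erase, Finset.mem_erase]
      by_cases ha1 : a ∈ e
      · exact Or.inl (Or.inl ha1)
      · have hax : a ≠ x := fun h => ha1 (by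
          rw [h]
          exact hxe)
        have haz : a ≠ z := fun h => ha1 (by
          rw [h]
          exact hze)
        by_cases ha2 : a = y'
        · left
          right
          rw [ha2]
          exact ⟨hx2.symm, hyf⟩
        · rcases ha with (h | h) | h
          · exact absurd h ha1
          · exact Or.inl (Or.inr ⟨hax, h⟩)
          · exact Or.inr ⟨ha2, haz, h⟩
    have h8 := Finset.card_le_card h7
    have h9 := Finset.card_union_le (e ∪ f.erase x) ((g.erase z).erase y')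
    have h10 := Finset.card_union_le e (f.erase x)
    rw [Finset.card_erase_of_mem hxf, h3 e he, h3 f hf] at h10
    rw [Finset.card_erase_of_mem (Finset.mem_erase.2 ⟨hzy'.symm, hyg⟩),
      Finset.card_erase_of_mem hzg, h3 g hg] at h9
    omega
  choose! z hz1 e he hxe hye hze hzx hzy using hz
  have hW1 : W.card ≤ (nb H y \ nb H y').card := by
    refine Finset.card_le_card_of_injOn z (fun x hx => hz1 x hx) ?_
    intro a ha b hb hab
    have ha' : a ∈ W := ha
    have hb' : b ∈ W := hb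
    have h1 : e a = e b := sp_lin hL (he a ha') (he b hb') (hzy a ha') (hze a ha') (hye a ha')
      (by
        rw [hab]
        exact hze b hb') (hye b hb')
    obtain ⟨t, -, -, -, ht⟩ := sp_third h3 (he a ha') (hzy a ha') (hze a ha') (hye a ha')
    have hb1 : b ∈ e a := by
      rw [h1]
      exact hxe b hb'
    have hya : a ≠ y := by
      rw [hW, Finset.mem_filter, Finset.mem_inter, sp_nb] at ha'
      exact ha'.1.1.1
    have hyb : b ≠ y := by
      rw [hW, Finset.mem_filter, Finset.mem_inter, sp_nb] at hb'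
      exact hb'.1.1.1
    have hzb : b ≠ z a := by
      rw [hab]
      exact (hzx b hb').symm
    rcases ht a (hxe a ha') with h | h | h
    · exact absurd h.symm (hzx a ha')
    · exact absurd h hya
    · rcases ht b hb1 with h' | h' | h'
      · exact absurd h' hzb
      · exact absurd h' hyb
      · rw [h, h']
  omega

/-- symmetric differences are large -/
theorem symm_ge (h3 : Three H) (hL : Linear H) (hN : NoTri H) {y y' : V} (hy : y ≠ y') :
    deg H y + deg H y' ≤ (symmDiff (nb H y) (nb H y')).card + 1 := by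
  have h1 := inter_le h3 hL hN hy
  have h2 := inter_le h3 hL hN hy.symm
  have h4 := card_nb h3 hL y
  have h5 := card_nb h3 hL y'
  have h6 := Finset.card_inter_add_card_sdiff (nb H y) (nb H y')
  have h7 := Finset.card_inter_add_card_sdiff (nb H y') (nb H y)
  have h8 : (symmDiff (nb H y) (nb H y')).card =
      (nb H y \ nb H y').card + (nb H y' \ nb H y).card := by
    have h9 : symmDiff (nb H y) (nb H y') = (nb H y \ nb H y') ∪ (nb H y' \ nb H y) := rfl
    rw [h9, Finset.card_union_of_disjoint]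
    rw [Finset.disjoint_left]
    intro a ha hb
    rw [Finset.mem_sdiff] at ha hb
    exact ha.2 hb.1
  omega

end Pool.Agent.RSV
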