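import Pool.Agent.RSV.NT
import Pool.Agent.RSV.LinR
import Pool.Agent.RSV.Sep
import Pool.Agent.RSV.HD
import Pool.Agent.RSV.Pk
import Pool.Agent.RSV.NumA

/-!
# RSV-AsA (.9h): Theorem A

PLAN. `n ≤ 5`: `H.card ≤ n.choose 3 ≤ 10`, and `n.choose 3 ≤ 4 n log n ≤ 4 n^(2-1/(d+1)) log n` for `n = 2, 3, 4, 5` (`0, 1, 4, 10`; `log n ≥ log 2 > 0.69`; the
exponent is `≥ 1`). Let `6 ≤ n`: `NoTri H` (`noTri_of_sixThree`), `lin_part`: `H0` (it is `Three`, `NoTri` as a subset). Let
`δ := H0.card / n²`. CLAIM `H0.card ≤ 3 n^(2-1/(d+1)) log n`. If `δ n ≤ 1` then `H0.card ≤ n ≤ ..` (`3 log n ≥ 1`, exponent `≥ 1`). Let `δ n > 1`.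
`δ ≤ 1/6`: `3 H0.card = ∑ deg ≤ n * n/2`. `X := univ.filter (fun v => δ n ≤ deg H0 v)`, `4 δ n ≤ X.card ≤ n` (`many_high`). `pack` with `F = nb H0`,
`ρ = δ`: for `x ≠ x'` in `X`: `symm_ge`: `symmDiff.card ≥ deg + deg - 1 ≥ 2 δ n - 1 > δ n`. `s` from `sA` (`X.card² ≤ n²`). The members of
`X.image (nb H0)` are members of `nbs H`: a vertex `v ∈ X` has positive degree, so `nb H0 v = nb H v`; `vcDim_mono`. So
`4 δ n ≤ X.card ≤ (s+1)^d ≤ (3 log n/δ)^d`, `numA`. Finally `H.card ≤ H0.card + (2/3) n` and `(2/3) n ≤ n log n ≤ n^(2-1/(d+1)) log n`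
(`log 2 > 2/3`).
-/

set_option autoImplicit false

namespace Pool.Agent.RSV

open Finset

theorem thmA {n d : ℕ} (hn : 2 ≤ n) {H : Finset (Finset (Fin n))} (h3 : Three H) (h : SixThree H)
    (hd : (nbs H).vcDim ≤ d) :
    (H.card : ℝ) ≤ 4 * (n : ℝ) ^ (2 - 1 / ((d : ℝ) + 1)) * Real.log n := by
  classical
  have hn1 : (1 : ℝ) ≤ n := by
    have : 1 ≤ n := by omega
    exact_mod_cast this
  have hn2 : (2 : ℝ) ≤ n := by exact_mod_cast hn
  have hn0 : (0 : ℝ) < n := by linarith
  obtain ⟨E, hEd⟩ : ∃ E : ℝ, E = (n : ℝ) ^ (2 - 1 / ((d : ℝ) + 1)) := ⟨_, rfl⟩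
  have hE : (n : ℝ) ≤ E := by
    rw [hEd]
    have hd0 : (0 : ℝ) < (d : ℝ) + 1 := by positivity
    have h1 : 1 / ((d : ℝ) + 1) ≤ 1 := by
      rw [div_le_one hd0]
      have : (0 : ℝ) ≤ d := Nat.cast_nonneg d
      linarith
    have h2 : (1 : ℝ) ≤ 2 - 1 / ((d : ℝ) + 1) := by linarith
    calc (n : ℝ) = (n : ℝ) ^ (1 : ℝ) := (Real.rpow_one _).symm
      _ ≤ _ := Real.rpow_le_rpow_of_exponent_le hn1 h2
  have hlog : 0.69 < Real.log n := by
    have h1 := Real.log_two_gt_d9
    have h2 : Real.log 2 ≤ Real.log n := Real.log_le_log (by norm_num) hn2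
    norm_num at h1 ⊢
    linarith
  rw [← hEd]
  have hE0 : 0 < E := lt_of_lt_of_le hn0 hE
  have hnE : (n : ℝ) * 0.69 ≤ E * Real.log n :=
    mul_le_mul hE hlog.le (by norm_num) hE0.le
  rcases le_or_gt n 5 with h5 | h5
  · -- few vertices
    have h1 : H ⊆ powersetCard 3 (univ : Finset (Fin n)) := by
      intro e he
      rw [mem_powersetCard]
      exact ⟨subset_univ _, h3 e he⟩
    have h2 := card_le_card h1
    rw [card_powersetCard, card_univ, Fintype.card_fin] at h2
    have h4 : (n.choose 3 : ℝ) ≤ 4 * ((n : ℝ) * 0.69) := by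
      interval_cases n
      · norm_num [Nat.choose]
      · norm_num [Nat.choose]
      · norm_num [Nat.choose]
      · norm_num [Nat.choose]
    have h6 : (H.card : ℝ) ≤ (n.choose 3 : ℝ) := by exact_mod_cast h2
    have h7 : 4 * E * Real.log n = 4 * (E * Real.log n) := by ring
    rw [h7]
    linarith
  · have hN : NoTri H := noTri_of_sixThree h5 h
    obtain ⟨H0, hsub, hL, hcard, hnb⟩ := lin_part h3 hN
    have h30 : Three H0 := fun e he => h3 e (hsub he)
    have hN0 : NoTri H0 := fun e he f hf g hg => hN e (hsub he) f (hsub hf) g (hsub hg)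
    rw [Fintype.card_fin] at hcard
    have hcard' : 3 * (H.card : ℝ) ≤ 3 * (H0.card : ℝ) + 2 * (n : ℝ) := by exact_mod_cast hcard
    have claim : (H0.card : ℝ) ≤ 3 * E * Real.log n := by
      obtain ⟨δ, hδd⟩ : ∃ δ : ℝ, δ = (H0.card : ℝ) / (n : ℝ) ^ 2 := ⟨_, rfl⟩
      have hδ0 : 0 ≤ δ := by
        rw [hδd]
        positivity
      have hH0 : (H0.card : ℝ) = δ * (n : ℝ) ^ 2 := by
        rw [hδd]
        field_simp
      rcases le_or_gt (δ * n) 1 with h1 | h1
      · have h2 : δ * (n : ℝ) ^ 2 ≤ n := by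
          have h4 := mul_le_mul_of_nonneg_right h1 hn0.le
          calc δ * (n : ℝ) ^ 2 = δ * n * n := by ring
            _ ≤ 1 * n := h4
            _ = n := one_mul _
        rw [hH0]
        have h4 : 3 * E * Real.log n = 3 * (E * Real.log n) := by ring
        rw [h4]
        linarith
      · have hδpos : 0 < δ := by
          by_contra hc
          have h2 : δ = 0 := le_antisymm (not_lt.1 hc) hδ0
          rw [h2, zero_mul] at h1
          linarith
        have hδ6 : δ ≤ 1 / 6 := by
          have h2 : ∑ v, 2 * deg H0 v ≤ ∑ _v : Fin n, n := by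
            apply sum_le_sum
            intro v _
            have := deg_le h30 hL v
            rw [Fintype.card_fin] at this
            exact this
          rw [← mul_sum, deg_sum h30, sum_const, card_univ, Fintype.card_fin, smul_eq_mul] at h2
          have h4 : 2 * (3 * (H0.card : ℝ)) ≤ (n : ℝ) * n := by exact_mod_cast h2
          rw [hδd, div_le_iff₀ (by positivity)]
          have h6 : (n : ℝ) * n = (n : ℝ) ^ 2 := by ring
          rw [h6] at h4
          linarith
        obtain ⟨X, hX, hXc⟩ : ∃ X : Finset (Fin n), (∀ v ∈ X, δ * (n : ℝ) ≤ (deg H0 v : ℝ)) ∧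
            4 * δ * (n : ℝ) ≤ (X.card : ℝ) := by
          have hm := many_high h30 hL hδ0 (by rw [Fintype.card_fin]; exact hH0)
          rw [Fintype.card_fin] at hm
          exact ⟨_, fun v hv => (mem_filter.1 hv).2, hm⟩
        obtain ⟨s, hs1, hs2⟩ := sA hn hδpos hδ6
        have hXn : (X.card : ℝ) ≤ n := by
          have h2 := card_le_univ X
          rw [Fintype.card_fin] at h2
          exact_mod_cast h2
        have hpk := pack (nb H0) X (ρ := δ) hδ0 (s := s) (d := d) (by
          intro x hx x' hx' hne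
          have h2 := symm_ge h30 hL hN0 hne
          have h4 : (deg H0 x : ℝ) + (deg H0 x' : ℝ) ≤
              ((symmDiff (nb H0 x) (nb H0 x')).card : ℝ) + 1 := by exact_mod_cast h2
          have h6 := hX x hx
          have h7 := hX x' hx'
          rw [Fintype.card_fin]
          linarith) (by
          refine lt_of_le_of_lt ?_ hs1
          apply mul_le_mul_of_nonneg_right _ (Real.exp_nonneg _)
          exact pow_le_pow_left₀ (Nat.cast_nonneg _) hXn 2) (by
          refine le_trans (vcDim_mono ?_) hd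
          intro u hu
          rw [mem_image] at hu
          obtain ⟨v, hv, rfl⟩ := hu
          have h2 : (1 : ℝ) < (deg H0 v : ℝ) := lt_of_lt_of_le h1 (hX v hv)
          have h4 : 0 < deg H0 v := by
            have : (0 : ℝ) < (deg H0 v : ℝ) := by linarith
            exact_mod_cast this
          unfold deg at h4
          obtain ⟨e, he⟩ := card_pos.1 h4
          rw [mem_filter] at he
          rw [hnb v ⟨e, he.1, he.2⟩]
          unfold nbs
          exact mem_image_of_mem _ (mem_univ v))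
        have h8 : (X.card : ℝ) ≤ ((s : ℝ) + 1) ^ d := by exact_mod_cast hpk
        have h9 : ((s : ℝ) + 1) ^ d ≤ (3 * Real.log n / δ) ^ d :=
          pow_le_pow_left₀ (by positivity) hs2 d
        have h10 := numA hn hδpos (hXc.trans (h8.trans h9))
        rw [← hEd] at h10
        rw [hH0]
        exact h10
    have h7 : 4 * E * Real.log n = 3 * E * Real.log n + E * Real.log n := by ring
    rw [h7]
    norm_num at hnE
    linarith

end Pool.Agent.RSV
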