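import Mathlib

/-!
# RSV-Cls: a class of sets with small pairwise intersections; nets
-/

set_option autoImplicit false

namespace Pool.Agent.RSV

open Finset

theorem class_bound {ι V : Type*} [DecidableEq ι] [DecidableEq V] (Y : Finset ι)
    (N : ι → Finset V) (A : Finset V) (hA : ∀ y ∈ Y, N y ⊆ A) {m : ℝ} (hm : 0 ≤ m)
    (h : ∀ y ∈ Y, ∀ y' ∈ Y, y ≠ y' → ((N y ∩ N y').card : ℝ) ≤ m) :
    ∑ y ∈ Y, ((N y).card : ℝ) ≤ A.card + Real.sqrt (m * A.card) * Y.card := by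
  classical
  obtain ⟨f, hf⟩ : ∃ f : ι → V → ℝ, ∀ y x, f y x = if x ∈ N y then 1 else 0 :=
    ⟨fun y x => if x ∈ N y then 1 else 0, fun _ _ => rfl⟩
  have hN : ∀ y ∈ Y, ((N y).card : ℝ) = ∑ x ∈ A, f y x := fun y hy => by
    have h1 : N y = A.filter (fun x => x ∈ N y) := by
      ext x
      rw [mem_filter]
      exact ⟨fun hx => ⟨hA y hy hx, hx⟩, fun hx => hx.2⟩
    have h2 : ∑ x ∈ A, f y x = ((A.filter (fun x => x ∈ N y)).card : ℝ) := by
      rw [card_filter, Nat.cast_sum]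
      exact sum_congr rfl fun x _ => by rw [hf]; push_cast; rfl
    rw [h2, ← h1]
  have hNN : ∀ y ∈ Y, ∀ y' ∈ Y, ((N y ∩ N y').card : ℝ) = ∑ x ∈ A, f y x * f y' x :=
    fun y hy y' _ => by
      have h1 : N y ∩ N y' = A.filter (fun x => x ∈ N y ∧ x ∈ N y') := by
        ext x
        rw [mem_filter, mem_inter]
        exact ⟨fun hx => ⟨hA y hy hx.1, hx⟩, fun hx => hx.2⟩
      rw [h1, card_filter, Nat.cast_sum]
      refine sum_congr rfl fun x _ => ?_
      rw [hf, hf]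
      by_cases h1 : x ∈ N y <;> by_cases h2 : x ∈ N y' <;> simp [h1, h2]
  obtain ⟨T, hT⟩ : ∃ T : ℝ, T = ∑ y ∈ Y, ((N y).card : ℝ) := ⟨_, rfl⟩
  have hT0 : 0 ≤ T := by rw [hT]; exact sum_nonneg fun _ _ => Nat.cast_nonneg _
  have hT1 : T = ∑ x ∈ A, ∑ y ∈ Y, f y x := by
    rw [hT, sum_congr rfl hN, sum_comm]
  have hsq : ∑ x ∈ A, (∑ y ∈ Y, f y x) ^ 2 ≤ T + m * (Y.card : ℝ) ^ 2 := by
    have h1 : ∑ x ∈ A, (∑ y ∈ Y, f y x) ^ 2 = ∑ y ∈ Y, ∑ y' ∈ Y, ((N y ∩ N y').card : ℝ) := by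
      calc ∑ x ∈ A, (∑ y ∈ Y, f y x) ^ 2 = ∑ x ∈ A, ∑ y ∈ Y, ∑ y' ∈ Y, f y x * f y' x :=
            sum_congr rfl fun x _ => by rw [sq, sum_mul_sum]
        _ = ∑ y ∈ Y, ∑ y' ∈ Y, ∑ x ∈ A, f y x * f y' x := by
            rw [sum_comm]
            exact sum_congr rfl fun y _ => sum_comm
        _ = _ := sum_congr rfl fun y hy => sum_congr rfl fun y' hy' => (hNN y hy y' hy').symm
    have h2 : ∀ y ∈ Y, ∑ y' ∈ Y, ((N y ∩ N y').card : ℝ) ≤ (N y).card + m * Y.card := by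
      intro y hy
      calc ∑ y' ∈ Y, ((N y ∩ N y').card : ℝ) ≤
          ∑ y' ∈ Y, ((if y = y' then ((N y).card : ℝ) else 0) + m) := by
            refine sum_le_sum fun y' hy' => ?_
            by_cases hyy : y = y'
            · rw [if_pos hyy, ← hyy, inter_self]
              linarith
            · rw [if_neg hyy, zero_add]
              exact h y hy y' hy' hyy
        _ = _ := by
            rw [sum_add_distrib, sum_ite_eq, if_pos hy, sum_const, nsmul_eq_mul]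
            ring
    rw [h1]
    calc ∑ y ∈ Y, ∑ y' ∈ Y, ((N y ∩ N y').card : ℝ) ≤ ∑ y ∈ Y, (((N y).card : ℝ) + m * Y.card) :=
          sum_le_sum h2
      _ = _ := by
          rw [sum_add_distrib, ← hT, sum_const, nsmul_eq_mul]
          ring
  have hcs : T ^ 2 ≤ A.card * (T + m * (Y.card : ℝ) ^ 2) := by
    have h1 := sq_sum_le_card_mul_sum_sq (s := A) (f := fun x => ∑ y ∈ Y, f y x)
    rw [← hT1] at h1
    exact h1.trans (mul_le_mul_of_nonneg_left hsq (Nat.cast_nonneg _))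
  rw [← hT]
  by_contra hcon
  push Not at hcon
  have ha : (0 : ℝ) ≤ A.card := Nat.cast_nonneg _
  have hc : (0 : ℝ) ≤ Y.card := Nat.cast_nonneg _
  obtain ⟨r, hr⟩ : ∃ r : ℝ, r = Real.sqrt (m * A.card) := ⟨_, rfl⟩
  have hr0 : 0 ≤ r := by rw [hr]; exact Real.sqrt_nonneg _
  have hr2 : r ^ 2 = m * A.card := by rw [hr, Real.sq_sqrt (mul_nonneg hm ha)]
  rw [← hr] at hcon
  have hrc : 0 ≤ r * Y.card := mul_nonneg hr0 hc
  have h1 : (r * Y.card) * (r * Y.card) < T * (T - A.card) :=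
    mul_lt_mul'' (by linarith) (by linarith) hrc hrc
  have h2 : (r * Y.card) * (r * Y.card) = m * A.card * (Y.card : ℝ) ^ 2 := by
    rw [← hr2]
    ring
  nlinarith

theorem exists_net {ι V : Type*} [DecidableEq ι] [DecidableEq V] (B : Finset ι)
    (F : ι → Finset V) {t : ℝ} (ht : 0 ≤ t) : ∃ B0 ⊆ B,
    (∀ x ∈ B0, ∀ x' ∈ B0, x ≠ x' → t < ((symmDiff (F x) (F x')).card : ℝ)) ∧
    ∀ y ∈ B, ∃ x ∈ B0, ((symmDiff (F y) (F x)).card : ℝ) ≤ t := by
  classical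
  obtain ⟨P, hP⟩ : ∃ P : Finset ι → Prop, ∀ s, P s ↔
      ∀ x ∈ s, ∀ x' ∈ s, x ≠ x' → t < ((symmDiff (F x) (F x')).card : ℝ) :=
    ⟨_, fun _ => Iff.rfl⟩
  obtain ⟨B0, hB0, hmax⟩ := exists_max_image (B.powerset.filter P) card
    ⟨∅, mem_filter.2 ⟨empty_mem_powerset _, (hP ∅).2 fun x hx => absurd hx (notMem_empty x)⟩⟩
  rw [mem_filter, mem_powerset, hP] at hB0
  refine ⟨B0, hB0.1, hB0.2, fun y hy => ?_⟩
  by_cases hyB : y ∈ B0
  · refine ⟨y, hyB, ?_⟩
    rw [symmDiff_self]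
    simpa using ht
  · by_contra hcon
    push Not at hcon
    have h1 := hmax (insert y B0) (by
      rw [mem_filter, mem_powerset, hP]
      refine ⟨insert_subset hy hB0.1, fun x hx x' hx' hne => ?_⟩
      rw [mem_insert] at hx hx'
      rcases hx with rfl | hx <;> rcases hx' with rfl | hx'
      · exact absurd rfl hne
      · exact hcon x' hx'
      · rw [symmDiff_comm]
        exact hcon x hx
      · exact hB0.2 x hx x' hx' hne)
    rw [card_insert_of_notMem hyB] at h1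
    omega

theorem sum_bound {ι V : Type*} [DecidableEq ι] [DecidableEq V] (B B0 : Finset ι)
    (N F : ι → Finset V) (A : Finset V) (hA : ∀ y ∈ B, N y ⊆ A) {t : ℝ} (ht : 0 ≤ t)
    (h : ∀ y ∈ B, ∀ y' ∈ B, y ≠ y' → (N y ∩ N y').card ≤ (F y \ F y').card)
    (hnet : ∀ y ∈ B, ∃ x ∈ B0, ((symmDiff (F y) (F x)).card : ℝ) ≤ t) :
    ∑ y ∈ B, ((N y).card : ℝ) ≤ B0.card * A.card + Real.sqrt (2 * t * A.card) * B.card := by
  classical
  have hnet' : ∀ y, ∃ x, y ∈ B → x ∈ B0 ∧ ((symmDiff (F y) (F x)).card : ℝ) ≤ t := fun y => by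
    by_cases hy : y ∈ B
    · obtain ⟨x, hx, hx'⟩ := hnet y hy
      exact ⟨x, fun _ => ⟨hx, hx'⟩⟩
    · exact ⟨y, fun h => absurd h hy⟩
  choose π hπ using hnet'
  have hmaps : ∀ y ∈ B, π y ∈ B0 := fun y hy => (hπ y hy).1
  have hfib : ∀ x ∈ B0, ∑ y ∈ B with π y = x, ((N y).card : ℝ) ≤
      A.card + Real.sqrt (2 * t * A.card) * (B.filter fun y => π y = x).card := by
    intro x _
    refine class_bound _ N A (fun y hy => hA y (mem_filter.1 hy).1) (by linarith) ?_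
    intro y hy y' hy' hne
    obtain ⟨hyB, hyx⟩ := mem_filter.1 hy
    obtain ⟨hyB', hyx'⟩ := mem_filter.1 hy'
    have h1 := h y hyB y' hyB' hne
    have h2 := (hπ y hyB).2
    have h3 := (hπ y' hyB').2
    rw [hyx] at h2
    rw [hyx'] at h3
    have h4 : F y \ F y' ⊆ symmDiff (F y) (F x) ∪ symmDiff (F y') (F x) := by
      intro v hv
      rw [mem_sdiff] at hv
      rw [mem_union, mem_symmDiff, mem_symmDiff]
      by_cases hvx : v ∈ F x
      · exact Or.inr (Or.inr ⟨hvx, hv.2⟩)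
      · exact Or.inl (Or.inl ⟨hv.1, hvx⟩)
    have h5 : (F y \ F y').card ≤ (symmDiff (F y) (F x)).card + (symmDiff (F y') (F x)).card :=
      (card_le_card h4).trans (card_union_le _ _)
    have h6 : ((N y ∩ N y').card : ℝ) ≤
        ((symmDiff (F y) (F x)).card : ℝ) + ((symmDiff (F y') (F x)).card : ℝ) := by
      exact_mod_cast h1.trans h5
    linarith
  have hcard : ((B.card : ℕ) : ℝ) = ∑ x ∈ B0, ((B.filter fun y => π y = x).card : ℝ) := by
    rw [card_eq_sum_card_fiberwise (f := π) (t := B0) (fun y hy => hmaps y hy), Nat.cast_sum]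
  calc ∑ y ∈ B, ((N y).card : ℝ) = ∑ x ∈ B0, ∑ y ∈ B with π y = x, ((N y).card : ℝ) :=
        (sum_fiberwise_of_maps_to hmaps _).symm
    _ ≤ ∑ x ∈ B0, ((A.card : ℝ) +
        Real.sqrt (2 * t * A.card) * (B.filter fun y => π y = x).card) := sum_le_sum hfib
    _ = _ := by
        rw [sum_add_distrib, sum_const, nsmul_eq_mul, ← mul_sum, ← hcard]

end Pool.Agent.RSV
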