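import Pool.Agent.RSV.Defs

/-!
# RSV-Cod (.8h): codegrees on one side and differences on the other side

`H` is linear, `NoTri`, `Tri H A B C`. PLAN. `nbA`: for `y ∈ B` the map `e ↦` (the vertex of `e` in `A`) is a bijection from the edges through `y` to
`nb H y ∩ A` (injective by linearity: two edges through `y` and `x ∈ A`, `x ≠ y` as `A`, `B` are disjoint). `sum_deg`: every edge has exactly one vertex in
`B`: double counting. `cod`: `x ∈ nb H y ∩ nb H y' ∩ A` is in an edge `e ∋ x, y`; let `z` be the vertex of `e` in `C` (`e = {x, y, z}`); `z ∈ nb H y ∩ C`.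
`z ∉ nb H y'`: otherwise `f ∋ x, y'` and `g ∋ z, y'`; `e ≠ f, g` because an edge has only one vertex in `B`; `f ≠ g`: otherwise `x, z ∈ e ∩ f`, so `e = f`.
`e ∪ f ∪ g` has at most six elements (`e` three, `f \ {x}` two, `g \ {z, y'}` one): contradiction to `NoTri`. `x ↦ z` is injective (the edge through
`y, z` is unique and has only one vertex in `A`).
-/

set_option autoImplicit false

namespace Pool.Agent.RSV

open Finset

variable {V : Type*} [DecidableEq V] [Fintype V] {H : Finset (Finset V)} {A B C : Finset V}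

omit [Fintype V] in
private theorem lin_eq (hL : Linear H) {e f : Finset V} (he : e ∈ H) (hf : f ∈ H) {u v : V}
    (huv : u ≠ v) (hue : u ∈ e) (huf : u ∈ f) (hve : v ∈ e) (hvf : v ∈ f) : e = f := by
  by_contra hne
  have h1 := hL e he f hf hne
  have h2 := Finset.card_le_one.1 h1 u (mem_inter.2 ⟨hue, huf⟩) v (mem_inter.2 ⟨hve, hvf⟩)
  exact huv h2

omit [Fintype V] in
private theorem one_eq {e S : Finset V} (h : (e ∩ S).card = 1) {u v : V} (hu : u ∈ e)
    (hu' : u ∈ S) (hv : v ∈ e) (hv' : v ∈ S) : u = v :=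
  Finset.card_le_one.1 h.le u (mem_inter.2 ⟨hu, hu'⟩) v (mem_inter.2 ⟨hv, hv'⟩)

theorem nbA (h3 : Three H) (hL : Linear H) (hT : Tri H A B C) {y : V} (hy : y ∈ B) :
    (nb H y ∩ A).card = deg H y := by
  obtain ⟨hAB, hBC, hAC, hE⟩ := hT
  have hne : ∀ x ∈ A, x ≠ y := fun x hx hxy =>
    (Finset.disjoint_left.1 hAB hx) (hxy ▸ hy)
  have key := Finset.card_mul_eq_card_mul (fun (e : Finset V) (x : V) => x ∈ e)
    (s := H.filter (fun e => y ∈ e)) (t := nb H y ∩ A) (m := 1) (n := 1) ?_ ?_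
  · rw [mul_one, mul_one] at key
    exact key.symm
  · intro e he
    rw [mem_filter] at he
    have e1 : Finset.bipartiteAbove (fun (e : Finset V) (x : V) => x ∈ e) (nb H y ∩ A) e
        = e ∩ A := by
      ext x
      simp only [Finset.bipartiteAbove, mem_filter, mem_inter, nb, mem_univ, true_and]
      constructor
      · rintro ⟨⟨_, h2⟩, h3⟩
        exact ⟨h3, h2⟩
      · rintro ⟨h1, h2⟩
        exact ⟨⟨⟨hne x h2, e, he.1, h1, he.2⟩, h2⟩, h1⟩
    rw [e1]
    exact (hE e he.1).1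
  · intro x hx
    rw [mem_inter, nb, mem_filter] at hx
    obtain ⟨⟨_, hxy, e, he, hxe, hye⟩, hxA⟩ := hx
    rw [Finset.card_eq_one]
    refine ⟨e, ?_⟩
    ext f
    simp only [Finset.bipartiteBelow, mem_filter, mem_singleton]
    constructor
    · rintro ⟨⟨hf, hyf⟩, hxf⟩
      exact lin_eq hL hf he hxy hxf hxe hyf hye
    · rintro rfl
      exact ⟨⟨he, hye⟩, hxe⟩

theorem sum_deg (hT : Tri H A B C) : ∑ y ∈ B, deg H y = H.card := by
  obtain ⟨hAB, hBC, hAC, hE⟩ := hT
  have key := Finset.sum_card_bipartiteAbove_eq_sum_card_bipartiteBelow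
    (fun (y : V) (e : Finset V) => y ∈ e) (s := B) (t := H)
  have e1 : ∑ y ∈ B, deg H y = ∑ y ∈ B, (Finset.bipartiteAbove (fun (y : V) (e : Finset V) => y ∈ e) H y).card := rfl
  rw [e1, key]
  have e2 : ∀ e ∈ H, (Finset.bipartiteBelow (fun (y : V) (e : Finset V) => y ∈ e) B e).card = 1 := by
    intro e he
    have e3 : Finset.bipartiteBelow (fun (y : V) (e : Finset V) => y ∈ e) B e = e ∩ B := by
      ext x
      simp only [Finset.bipartiteBelow, mem_filter, mem_inter]
      exact and_comm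
    rw [e3]
    exact (hE e he).2.1
  rw [Finset.sum_congr rfl e2, Finset.sum_const, smul_eq_mul, mul_one]

theorem cod (h3 : Three H) (hL : Linear H) (hN : NoTri H) (hT : Tri H A B C) {y y' : V}
    (hy : y ∈ B) (hy' : y' ∈ B) (hne : y ≠ y') :
    ((nb H y ∩ A) ∩ (nb H y' ∩ A)).card ≤ ((nb H y ∩ C) \ (nb H y' ∩ C)).card := by
  obtain ⟨hAB, hBC, hAC, hE⟩ := hT
  have hneAB : ∀ u ∈ A, ∀ v ∈ B, u ≠ v := fun u hu v hv h =>
    (Finset.disjoint_left.1 hAB hu) (h ▸ hv)
  have hneBC : ∀ u ∈ B, ∀ v ∈ C, u ≠ v := fun u hu v hv h =>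
    (Finset.disjoint_left.1 hBC hu) (h ▸ hv)
  have hneAC : ∀ u ∈ A, ∀ v ∈ C, u ≠ v := fun u hu v hv h =>
    (Finset.disjoint_left.1 hAC hu) (h ▸ hv)
  refine Finset.card_le_card_of_forall_subsingleton
    (fun (x z : V) => ∃ e ∈ H, x ∈ e ∧ y ∈ e ∧ z ∈ e) ?_ ?_
  · intro x hx
    simp only [mem_inter, nb, mem_filter, mem_univ, true_and] at hx
    obtain ⟨⟨⟨hxy, e, he, hxe, hye⟩, hxA⟩, ⟨⟨hxy', f, hf, hxf, hyf⟩, _⟩⟩ := hx
    obtain ⟨z, hz⟩ := Finset.card_pos.1 (by rw [(hE e he).2.2]; exact one_pos)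
    rw [mem_inter] at hz
    obtain ⟨hze, hzC⟩ := hz
    refine ⟨z, ?_, e, he, hxe, hye, hze⟩
    simp only [mem_sdiff, mem_inter, nb, mem_filter, mem_univ, true_and]
    refine ⟨⟨⟨(hneBC y hy z hzC).symm, e, he, hze, hye⟩, hzC⟩, ?_⟩
    rintro ⟨⟨hzy', g, hg, hzg, hyg⟩, -⟩
    have hef : e ≠ f := by
      rintro rfl
      exact hne (one_eq (hE e he).2.1 hye hy hyf hy')
    have heg : e ≠ g := by
      rintro rfl
      exact hne (one_eq (hE e he).2.1 hye hy hyg hy')
    have hfg : f ≠ g := by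
      rintro rfl
      exact hef (lin_eq hL he hf (hneAC x hxA z hzC) hxe hxf hze hzg)
    have h6 := hN e he f hf g hg hef hfg heg
    have hsub : e ∪ f ∪ g ⊆ e ∪ f.erase x ∪ (g.erase z).erase y' := by
      intro u hu
      simp only [mem_union, mem_erase] at hu ⊢
      by_cases h1 : u = x
      · subst h1
        exact Or.inl (Or.inl hxe)
      · by_cases h2 : u = z
        · subst h2
          exact Or.inl (Or.inl hze)
        · by_cases h4 : u = y'
          · subst h4
            exact Or.inl (Or.inr ⟨h1, hyf⟩)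
          · rcases hu with (hu | hu) | hu
            · exact Or.inl (Or.inl hu)
            · exact Or.inl (Or.inr ⟨h1, hu⟩)
            · exact Or.inr ⟨h4, h2, hu⟩
    have c1 : (f.erase x).card = 2 := by rw [card_erase_of_mem hxf, h3 f hf]
    have c2 : ((g.erase z).erase y').card = 1 := by
      rw [card_erase_of_mem (mem_erase.2 ⟨hneBC y' hy' z hzC, hyg⟩), card_erase_of_mem hzg,
        h3 g hg]
    have c3 := Finset.card_le_card hsub
    have c4 := Finset.card_union_le (e ∪ f.erase x) ((g.erase z).erase y')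
    have c5 := Finset.card_union_le e (f.erase x)
    have c6 := h3 e he
    omega
  · intro z hz
    simp only [mem_sdiff, mem_inter, nb, mem_filter, mem_univ, true_and] at hz
    obtain ⟨⟨_, hzC⟩, _⟩ := hz
    intro x hx x' hx'
    simp only [Set.mem_setOf_eq, mem_inter, nb, mem_filter, mem_univ, true_and] at hx hx'
    obtain ⟨⟨⟨_, hxA⟩, _⟩, e, he, hxe, hye, hze⟩ := hx
    obtain ⟨⟨⟨_, hxA'⟩, _⟩, f, hf, hxf, hyf, hzf⟩ := hx'
    have hef : e = f := lin_eq hL he hf (hneBC y hy z hzC) hye hyf hze hzf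
    subst hef
    exact one_eq (hE e he).1 hxe hxA hxf hxA'

end Pool.Agent.RSV
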