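import Mathlib

/-!
# RSV-NumB: solving the inequality (B)
-/

set_option autoImplicit false

namespace Pool.Agent.RSV

private theorem log_big {n : ℕ} (hn : 2 ≤ n) : (1 / 2 : ℝ) < Real.log n := by
  have h1 : Real.log 2 ≤ Real.log n := Real.log_le_log (by norm_num) (by exact_mod_cast hn)
  have h2 := Real.log_two_gt_d9
  linarith

theorem numB {n d : ℕ} (hn : 2 ≤ n) {δ : ℝ} (hδ : 0 < δ)
    (h : δ * n / 2 ≤ (17 * Real.log n / δ ^ 2) ^ d) :
    δ * (n : ℝ) ^ 2 ≤ 9 * (n : ℝ) ^ (2 - 1 / (2 * (d : ℝ) + 1)) * Real.sqrt (Real.log n) := by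
  have hn0 : (0 : ℝ) < n := by
    have : 0 < n := by omega
    exact_mod_cast this
  have hL := log_big hn
  set L := Real.log n with hLd
  have hL0 : 0 < L := by linarith
  have hs : (1 / 2 : ℝ) < Real.sqrt L := by
    apply Real.lt_sqrt_of_sq_lt
    linarith
  have hD : (0 : ℝ) < 2 * (d : ℝ) + 1 := by positivity
  set y : ℝ := (n : ℝ) ^ (1 / (2 * (d : ℝ) + 1)) with hy
  have hy0 : 0 < y := Real.rpow_pos_of_pos hn0 _
  have hyp : y ^ (2 * d + 1) = n := by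
    rw [hy, ← Real.rpow_natCast, ← Real.rpow_mul hn0.le]
    have : 1 / (2 * (d : ℝ) + 1) * ((2 * d + 1 : ℕ) : ℝ) = 1 := by
      push_cast
      field_simp
    rw [this, Real.rpow_one]
  have hsplit : (n : ℝ) ^ (2 - 1 / (2 * (d : ℝ) + 1)) = (n : ℝ) ^ 2 / y := by
    rw [Real.rpow_sub hn0, Real.rpow_two]
  rw [hsplit]
  have hkey : δ * y ≤ 9 * Real.sqrt L := by
    by_contra hcon
    push Not at hcon
    have h1 : (9 * Real.sqrt L) ^ (2 * d + 1) < (δ * y) ^ (2 * d + 1) :=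
      pow_lt_pow_left₀ hcon (by positivity) (by omega)
    have h2 : (9 * Real.sqrt L) ^ (2 * d + 1) = 9 * 81 ^ d * (L ^ d * Real.sqrt L) := by
      have h3 : Real.sqrt L ^ (2 * d + 1) = L ^ d * Real.sqrt L := by
        rw [pow_succ, pow_mul, Real.sq_sqrt hL0.le]
      have h4 : (9 : ℝ) ^ (2 * d + 1) = 9 * 81 ^ d := by
        rw [pow_succ, pow_mul]
        norm_num
        ring
      rw [mul_pow, h3, h4]
    have h5 : (δ * y) ^ (2 * d + 1) = n * δ ^ (2 * d + 1) := by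
      rw [mul_pow, hyp, mul_comm]
    have h6 : n * δ ^ (2 * d + 1) ≤ 2 * (17 ^ d * L ^ d) := by
      have h7 : (17 * L / δ ^ 2) ^ d * δ ^ (2 * d) = 17 ^ d * L ^ d := by
        rw [div_pow, ← pow_mul, mul_pow]
        field_simp
      have h8 := mul_le_mul_of_nonneg_right h (by positivity : 0 ≤ δ ^ (2 * d))
      rw [h7] at h8
      have h9 : (n : ℝ) * δ ^ (2 * d + 1) = 2 * (δ * n / 2 * δ ^ (2 * d)) := by
        rw [pow_succ]
        ring
      rw [h9]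
      linarith
    have h10 : (17 : ℝ) ^ d ≤ 81 ^ d := pow_le_pow_left₀ (by norm_num) (by norm_num) d
    have h11 : 9 * 81 ^ d * (L ^ d * Real.sqrt L) ≥ 9 * 17 ^ d * (L ^ d * (1 / 2)) := by
      apply mul_le_mul (by linarith) _ (by positivity) (by positivity)
      exact mul_le_mul_of_nonneg_left hs.le (by positivity)
    have h12 : 0 < (17 : ℝ) ^ d * L ^ d := by positivity
    rw [h2, h5] at h1
    nlinarith
  have h13 : 9 * ((n : ℝ) ^ 2 / y) * Real.sqrt L = (n : ℝ) ^ 2 * (9 * Real.sqrt L) / y := by ring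
  rw [h13, le_div_iff₀ hy0]
  have h14 := mul_le_mul_of_nonneg_left hkey (by positivity : 0 ≤ (n : ℝ) ^ 2)
  linarith

theorem sB {n : ℕ} (hn : 2 ≤ n) {δ : ℝ} (hδ : 0 < δ) (hδ' : δ ≤ 1 / 6) : ∃ s : ℕ,
    (n : ℝ) ^ 2 * Real.exp (-(δ ^ 2 / 8 * s)) < 1 ∧ (s : ℝ) + 1 ≤ 17 * Real.log n / δ ^ 2 := by
  have hn0 : (0 : ℝ) < n := by
    have : 0 < n := by omega
    exact_mod_cast this
  have hL := log_big hn
  set L := Real.log n with hLd
  have hd2 : 0 < δ ^ 2 := by positivity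
  have hd3 : δ ^ 2 ≤ 1 / 36 := by nlinarith
  refine ⟨⌊16 * L / δ ^ 2⌋₊ + 1, ?_, ?_⟩
  · have h1 := Nat.lt_floor_add_one (16 * L / δ ^ 2)
    have h2 : (n : ℝ) ^ 2 = Real.exp (2 * L) := by
      have h3 : Real.exp L = n := Real.exp_log hn0
      have h4 := Real.exp_nat_mul L 2
      push_cast at h4
      rw [h4, h3]
    rw [h2, ← Real.exp_add, Real.exp_lt_one_iff]
    push_cast
    rw [div_lt_iff₀ hd2] at h1
    linarith
  · have h1 : (⌊16 * L / δ ^ 2⌋₊ : ℝ) ≤ 16 * L / δ ^ 2 := Nat.floor_le (by positivity)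
    have h2 : 17 * L / δ ^ 2 = 16 * L / δ ^ 2 + L / δ ^ 2 := by ring
    have h3 : 2 ≤ L / δ ^ 2 := by
      rw [le_div_iff₀ hd2]
      linarith
    push_cast
    rw [h2]
    linarith

end Pool.Agent.RSV
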