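import Pool.Agent.RSV.NT
import Pool.Agent.RSV.LinR
import Pool.Agent.RSV.HD
import Pool.Agent.RSV.Pk
import Pool.Agent.RSV.Cod
import Pool.Agent.RSV.Cls
import Pool.Agent.RSV.NumB

/-!
# RSV-AsB (1.0h): Theorem B (one-sided)

PLAN. `n ≤ 5`: `H.card ≤ n.choose 3 ≤ 10 ≤ 10 n √(log n)` for `n ≥ 2` (`√(log 2) > 1/2`; for `n = 2` `H` is empty), exponent `≥ 1`. Let `6 ≤ n`: `NoTri H`,
`lin_part`: `H0` (`Three`, `NoTri`, `Tri`, as a subset). `δ := H0.card/n²`. CLAIM `H0.card ≤ 9 n^(2-1/(2d+1)) √(log n)`. `δ = 0` trivial. `δ ≤ 1/6`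
(`deg_sum`, `deg_le`). Put `F y = nb H0 y ∩ C`, `N y = nb H0 y ∩ A`, `t = δ²/8 * n`, `B' := B.filter (fun y => ∃ e ∈ H0, y ∈ e)` (so `nb H0 y = nb H y` there and
`deg H0 y = 0` for the others), `B0` from `exists_net` for `B'`, `F`, `t`. `sum_bound` (`cod`): `H0.card = ∑_{y ∈ B'} deg ≤ B0.card * A.card + √(2 t A.card) B'.card
≤ B0.card n + (δ/2) n²` (`A.card ≤ n`, `B'.card ≤ n`, `√(δ²/4 * n * n) = δ/2 * n`). So `δ n/2 ≤ B0.card`. `pack` with `ρ = δ²/8`, `X = B0`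
(`X.image F ⊆ tr H B C`, `vcDim_mono`), `s` from `sB`, `B0.card ≤ n`. `numB`. Finally `H.card ≤ H0.card + (2/3) n`, `(2/3) n ≤ n^(2-1/(2d+1)) √(log n)`
(`√(log 2) > 0.8`).
-/

set_option autoImplicit false

namespace Pool.Agent.RSV

open Finset

private theorem ge_n {n d : ℕ} (hn : 2 ≤ n) : (n : ℝ) ≤ (n : ℝ) ^ (2 - 1 / (2 * (d : ℝ) + 1)) := by
  have hn1 : (1 : ℝ) ≤ n := by exact_mod_cast (by omega : 1 ≤ n)
  have h1 : 1 / (2 * (d : ℝ) + 1) ≤ 1 := by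
    rw [div_le_one (by positivity)]
    have : (0 : ℝ) ≤ d := Nat.cast_nonneg _
    linarith
  calc (n : ℝ) = (n : ℝ) ^ (1 : ℝ) := (Real.rpow_one _).symm
    _ ≤ _ := Real.rpow_le_rpow_of_exponent_le hn1 (by linarith)

private theorem sqrt_log_big {n : ℕ} (hn : 2 ≤ n) : (0.8 : ℝ) < Real.sqrt (Real.log n) := by
  have h1 : Real.log 2 ≤ Real.log n := Real.log_le_log (by norm_num) (by exact_mod_cast hn)
  have h2 := Real.log_two_gt_d9
  apply Real.lt_sqrt_of_sq_lt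
  norm_num
  linarith

private theorem small {n d : ℕ} (hn : 2 ≤ n) (hn5 : n ≤ 5) {H : Finset (Finset (Fin n))} (h3 : Three H) :
    (H.card : ℝ) ≤ 10 * (n : ℝ) ^ (2 - 1 / (2 * (d : ℝ) + 1)) * Real.sqrt (Real.log n) := by
  have h1 : H ⊆ powersetCard 3 (univ : Finset (Fin n)) := fun e he =>
    mem_powersetCard.2 ⟨subset_univ _, h3 e he⟩
  have h2 := card_le_card h1
  rw [card_powersetCard, card_univ, Fintype.card_fin] at h2
  have h4 : n.choose 3 ≤ 10 := by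
    interval_cases n <;> decide
  have h5 : (H.card : ℝ) ≤ 10 := by exact_mod_cast h2.trans h4
  have h6 := ge_n (d := d) hn
  have h7 := sqrt_log_big hn
  have h8 : (2 : ℝ) ≤ n := by exact_mod_cast hn
  obtain ⟨P, hP⟩ : ∃ P, P = (n : ℝ) ^ (2 - 1 / (2 * (d : ℝ) + 1)) := ⟨_, rfl⟩
  rw [← hP] at h6 ⊢
  have h9 : (2 : ℝ) * 0.8 ≤ P * Real.sqrt (Real.log n) :=
    mul_le_mul (by linarith) h7.le (by norm_num) (by linarith)
  linarith

private theorem main {n d : ℕ} (hn : 6 ≤ n) {H H0 : Finset (Finset (Fin n))} (h3 : Three H0)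
    (hL : Linear H0) (hN : NoTri H0) {A B C : Finset (Fin n)} (hT : Tri H0 A B C)
    (hnb : ∀ v, (∃ e ∈ H0, v ∈ e) → nb H0 v = nb H v) (hd : (tr H B C).vcDim ≤ d) :
    (H0.card : ℝ) ≤ 9 * (n : ℝ) ^ (2 - 1 / (2 * (d : ℝ) + 1)) * Real.sqrt (Real.log n) := by
  classical
  have hn0 : (0 : ℝ) < n := by exact_mod_cast (by omega : 0 < n)
  have hcard : Fintype.card (Fin n) = n := Fintype.card_fin n
  rcases Nat.eq_zero_or_pos H0.card with h0 | h0
  · rw [h0, Nat.cast_zero]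
    positivity
  obtain ⟨δ, hδd⟩ : ∃ δ : ℝ, δ = (H0.card : ℝ) / (n : ℝ) ^ 2 := ⟨_, rfl⟩
  have h0' : (0 : ℝ) < H0.card := by exact_mod_cast h0
  have hδ : 0 < δ := by rw [hδd]; positivity
  have hδn : δ * (n : ℝ) ^ 2 = H0.card := by
    rw [hδd]
    field_simp
  have hδ6 : δ ≤ 1 / 6 := by
    have h1 := deg_sum h3
    have h2 : 2 * ∑ v, deg H0 v ≤ ∑ _v : Fin n, n := by
      rw [mul_sum]
      refine sum_le_sum fun v _ => ?_
      have := deg_le h3 hL v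
      rwa [hcard] at this
    rw [sum_const, card_univ, hcard, smul_eq_mul, h1] at h2
    have h3 : (2 : ℝ) * (3 * H0.card) ≤ n * n := by exact_mod_cast h2
    have h4 : 6 * (δ * (n : ℝ) ^ 2) ≤ (n : ℝ) ^ 2 := by rw [hδn]; nlinarith
    have h5 : (0 : ℝ) < (n : ℝ) ^ 2 := by positivity
    nlinarith
  obtain ⟨B', hB'⟩ : ∃ B' : Finset (Fin n), B' = B.filter (fun y => ∃ e ∈ H0, y ∈ e) := ⟨_, rfl⟩
  obtain ⟨F, hF⟩ : ∃ F : Fin n → Finset (Fin n), ∀ y, F y = nb H0 y ∩ C := ⟨_, fun _ => rfl⟩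
  obtain ⟨N, hNd⟩ : ∃ N : Fin n → Finset (Fin n), ∀ y, N y = nb H0 y ∩ A := ⟨_, fun _ => rfl⟩
  obtain ⟨t, ht⟩ : ∃ t : ℝ, t = δ ^ 2 / 8 * n := ⟨_, rfl⟩
  have ht0 : 0 ≤ t := by rw [ht]; positivity
  have hB'B : ∀ y ∈ B', y ∈ B := fun y hy => by
    rw [hB', mem_filter] at hy
    exact hy.1
  have hB'e : ∀ y ∈ B', ∃ e ∈ H0, y ∈ e := fun y hy => by
    rw [hB', mem_filter] at hy
    exact hy.2
  obtain ⟨B0, hB0, hsep, hnet⟩ := exists_net B' F ht0
  have hsum := sum_bound B' B0 N F A (fun y _ => by rw [hNd]; exact inter_subset_right) ht0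
    (fun y hy y' hy' hne => by
      rw [hNd, hNd, hF, hF]
      exact cod h3 hL hN hT (hB'B y hy) (hB'B y' hy') hne) hnet
  have hlhs : ∑ y ∈ B', ((N y).card : ℝ) = H0.card := by
    have h1 : ∑ y ∈ B', (N y).card = H0.card := by
      rw [← sum_deg hT, hB', sum_filter]
      refine sum_congr rfl fun y hy => ?_
      by_cases hye : ∃ e ∈ H0, y ∈ e
      · rw [if_pos hye, hNd]
        exact nbA h3 hL hT hy
      · rw [if_neg hye, deg, eq_comm, card_eq_zero, filter_eq_empty_iff]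
        intro e he hye'
        exact hye ⟨e, he, hye'⟩
    exact_mod_cast h1
  rw [hlhs] at hsum
  have hA : (A.card : ℝ) ≤ n := by
    have := card_le_univ A
    rw [hcard] at this
    exact_mod_cast this
  have hB'c : (B'.card : ℝ) ≤ n := by
    have := card_le_univ B'
    rw [hcard] at this
    exact_mod_cast this
  have hB0c : (B0.card : ℝ) ≤ n := by
    have := card_le_univ B0
    rw [hcard] at this
    exact_mod_cast this
  have hsq : Real.sqrt (2 * t * A.card) ≤ δ / 2 * n := by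
    apply Real.sqrt_le_iff.2
    refine ⟨by positivity, ?_⟩
    rw [ht]
    have h1 : 2 * (δ ^ 2 / 8 * n) * (A.card : ℝ) ≤ 2 * (δ ^ 2 / 8 * n) * n :=
      mul_le_mul_of_nonneg_left hA (by positivity)
    refine h1.trans (le_of_eq ?_)
    ring
  have hge : δ * n / 2 ≤ B0.card := by
    have h1 : (B0.card : ℝ) * A.card ≤ B0.card * n := mul_le_mul_of_nonneg_left hA (Nat.cast_nonneg _)
    have h2 : Real.sqrt (2 * t * A.card) * B'.card ≤ δ / 2 * n * n :=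
      mul_le_mul hsq hB'c (Nat.cast_nonneg _) (by positivity)
    have h4 : δ * n / 2 * n ≤ B0.card * n := by
      rw [← hδn] at hsum
      nlinarith
    exact le_of_mul_le_mul_right h4 hn0
  obtain ⟨s, hs1, hs2⟩ := sB (n := n) (by omega) hδ hδ6
  have hpack := pack F B0 (ρ := δ ^ 2 / 8) (by positivity) (s := s) (d := d)
    (by
      intro x hx x' hx' hne
      rw [hcard, ← ht]
      exact hsep x hx x' hx' hne)
    (by
      refine lt_of_le_of_lt ?_ hs1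
      refine mul_le_mul_of_nonneg_right ?_ (Real.exp_pos _).le
      exact pow_le_pow_left₀ (Nat.cast_nonneg _) hB0c 2)
    (by
      refine (vcDim_mono ?_).trans hd
      intro u hu
      rw [mem_image] at hu
      obtain ⟨y, hy, rfl⟩ := hu
      rw [hF, hnb y (hB'e y (hB0 hy)), tr, mem_image]
      exact ⟨y, hB'B y (hB0 hy), rfl⟩)
  have hfin : δ * n / 2 ≤ (17 * Real.log n / δ ^ 2) ^ d := by
    refine hge.trans ?_
    have h1 : (B0.card : ℝ) ≤ ((s : ℝ) + 1) ^ d := by exact_mod_cast hpack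
    exact h1.trans (pow_le_pow_left₀ (by positivity) hs2 d)
  have := numB (n := n) (by omega) hδ hfin
  rwa [hδn] at this

theorem thmB {n d : ℕ} (hn : 2 ≤ n) {H : Finset (Finset (Fin n))} (h3 : Three H) (h : SixThree H)
    {A B C : Finset (Fin n)} (hT : Tri H A B C) (hd : (tr H B C).vcDim ≤ d) :
    (H.card : ℝ) ≤ 10 * (n : ℝ) ^ (2 - 1 / (2 * (d : ℝ) + 1)) * Real.sqrt (Real.log n) := by
  rcases Nat.lt_or_ge n 6 with hn6 | hn6
  · exact small hn (by omega) h3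
  obtain ⟨H0, hH0, hL, hc, hnb⟩ := lin_part h3 (noTri_of_sixThree hn6 h)
  have h30 : Three H0 := fun e he => h3 e (hH0 he)
  have hN0 : NoTri H0 := fun e he f hf g hg =>
    noTri_of_sixThree hn6 h e (hH0 he) f (hH0 hf) g (hH0 hg)
  have hT0 : Tri H0 A B C := ⟨hT.1, hT.2.1, hT.2.2.1, fun e he => hT.2.2.2 e (hH0 he)⟩
  have hm := main (H := H) hn6 h30 hL hN0 hT0 hnb hd
  rw [Fintype.card_fin] at hc
  have hc' : 3 * (H.card : ℝ) ≤ 3 * H0.card + 2 * n := by exact_mod_cast hc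
  have h6 := ge_n (d := d) hn
  have h7 := sqrt_log_big hn
  have hn0 : (0 : ℝ) < n := by exact_mod_cast (by omega : 0 < n)
  obtain ⟨P, hP⟩ : ∃ P, P = (n : ℝ) ^ (2 - 1 / (2 * (d : ℝ) + 1)) := ⟨_, rfl⟩
  rw [← hP] at h6 hm ⊢
  have h8 : P * 0.8 ≤ P * Real.sqrt (Real.log n) := mul_le_mul_of_nonneg_left h7.le (by linarith)
  nlinarith

end Pool.Agent.RSV
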