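import Pool.Agent.RSV.CDefs

/-!
# RSV-CntB (1.0h): the number of lattice points on a sphere

Weights `(1/2) ^ (|x_i| / q)`: their sum over the cube is at most `(4 q) ^ D`, and on the sphere the weight is at least `16 ^ (-D)`.
-/

set_option autoImplicit false

namespace Pool.Agent.RSV

open Finset

private theorem sum_blocks {q : ℕ} (hq : 1 ≤ q) (J : ℕ) :
    ∑ m ∈ range (q * J), ((1 : ℝ) / 2) ^ (m / q) = q * (2 - 2 * (1 / 2) ^ J) := by
  induction J with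
  | zero => simp
  | succ J ih =>
    rw [mul_add, mul_one, Finset.sum_range_add, ih]
    have h1 : ∀ i ∈ range q, ((1 : ℝ) / 2) ^ ((q * J + i) / q) = (1 / 2) ^ J := by
      intro i hi
      rw [Finset.mem_range] at hi
      rw [Nat.mul_add_div (by omega), Nat.div_eq_of_lt hi, add_zero]
    rw [Finset.sum_congr rfl h1, Finset.sum_const, Finset.card_range, nsmul_eq_mul, pow_succ]
    ring

private theorem sum_nat {q : ℕ} (hq : 1 ≤ q) (r : ℕ) :
    ∑ m ∈ range (r + 1), ((1 : ℝ) / 2) ^ (m / q) ≤ 2 * q := by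
  have h1 : ∑ m ∈ range (r + 1), ((1 : ℝ) / 2) ^ (m / q) ≤
      ∑ m ∈ range (q * (r + 1)), ((1 : ℝ) / 2) ^ (m / q) := by
    refine Finset.sum_le_sum_of_subset_of_nonneg ?_ fun _ _ _ => by positivity
    intro m hm
    rw [Finset.mem_range] at hm ⊢
    exact hm.trans_le (Nat.le_mul_of_pos_left _ hq)
  rw [sum_blocks hq] at h1
  have h2 : (0 : ℝ) ≤ q * (2 * (1 / 2) ^ (r + 1)) := by positivity
  linarith

private theorem sum_int {q : ℕ} (hq : 1 ≤ q) (r : ℕ) :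
    ∑ x ∈ Icc (-(r : ℤ)) r, ((1 : ℝ) / 2) ^ (x.natAbs / q) ≤ 4 * q := by
  have hmaps : ∀ x ∈ Icc (-(r : ℤ)) r, x.natAbs ∈ range (r + 1) := by
    intro x hx
    rw [Finset.mem_Icc] at hx
    rw [Finset.mem_range]
    omega
  rw [← Finset.sum_fiberwise_of_maps_to hmaps]
  have h1 : ∀ m ∈ range (r + 1), ∑ x ∈ (Icc (-(r : ℤ)) r).filter (fun x => x.natAbs = m),
      ((1 : ℝ) / 2) ^ (x.natAbs / q) ≤ 2 * (1 / 2) ^ (m / q) := by
    intro m _
    have h2 : ∀ x ∈ (Icc (-(r : ℤ)) r).filter (fun x => x.natAbs = m),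
        ((1 : ℝ) / 2) ^ (x.natAbs / q) = (1 / 2) ^ (m / q) := by
      intro x hx
      rw [(Finset.mem_filter.1 hx).2]
    rw [Finset.sum_congr rfl h2, Finset.sum_const, nsmul_eq_mul]
    have h3 : ((Icc (-(r : ℤ)) r).filter (fun x => x.natAbs = m)).card ≤ 2 := by
      refine (Finset.card_le_card (t := {(m : ℤ), -(m : ℤ)}) ?_).trans Finset.card_le_two
      intro x hx
      have h4 := (Finset.mem_filter.1 hx).2
      rw [Finset.mem_insert, Finset.mem_singleton]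
      omega
    exact mul_le_mul_of_nonneg_right (by exact_mod_cast h3) (by positivity)
  refine (Finset.sum_le_sum h1).trans ?_
  rw [← Finset.mul_sum]
  have := sum_nat hq r
  linarith

private theorem sum_div {D q r : ℕ} (hq : 1 ≤ q) (hr : r ≤ 4 * D * q ^ 2) {x : Fin D → ℤ}
    (hx : sq x = r) : ∑ i, (x i).natAbs / q ≤ 4 * D := by
  have h1 : ∑ i, (x i).natAbs ^ 2 = r := by
    have h2 : ((∑ i, (x i).natAbs ^ 2 : ℕ) : ℤ) = r := by
      rw [← hx]
      unfold sq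
      rw [Nat.cast_sum]
      refine Finset.sum_congr rfl fun i _ => ?_
      rw [Nat.cast_pow, Int.natCast_natAbs, sq_abs]
    exact_mod_cast h2
  have h3 : q ^ 2 * ∑ i, (x i).natAbs / q ≤ r := by
    rw [← h1, Finset.mul_sum]
    refine Finset.sum_le_sum fun i _ => ?_
    have h4 := Nat.mul_div_le (x i).natAbs q
    calc q ^ 2 * ((x i).natAbs / q) ≤ q ^ 2 * ((x i).natAbs / q) ^ 2 :=
          Nat.mul_le_mul_left _ (Nat.le_self_pow two_ne_zero _)
      _ = (q * ((x i).natAbs / q)) ^ 2 := by ring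
      _ ≤ (x i).natAbs ^ 2 := Nat.pow_le_pow_left h4 2
  have h4 : q ^ 2 * ∑ i, (x i).natAbs / q ≤ q ^ 2 * (4 * D) := by
    refine (h3.trans hr).trans_eq ?_
    ring
  exact Nat.le_of_mul_le_mul_left h4 (by positivity)

theorem card_Sph {D q r : ℕ} (hq : 1 ≤ q) (hr : r ≤ 4 * D * q ^ 2) :
    (Sph D r).card ≤ (64 * q) ^ D := by
  have hw0 : ∀ x : Fin D → ℤ, 0 ≤ ∏ i, ((1 : ℝ) / 2) ^ ((x i).natAbs / q) := fun x =>
    Finset.prod_nonneg fun i _ => by positivity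
  have h1 : ∑ x ∈ Fintype.piFinset fun _ : Fin D => Icc (-(r : ℤ)) r,
      ∏ i, ((1 : ℝ) / 2) ^ ((x i).natAbs / q) ≤ (4 * q) ^ D := by
    have h2 := Finset.prod_univ_sum (fun _ : Fin D => Icc (-(r : ℤ)) r)
      (fun _ x => ((1 : ℝ) / 2) ^ (x.natAbs / q))
    rw [← h2, Finset.prod_const, Finset.card_univ, Fintype.card_fin]
    exact pow_le_pow_left₀ (Finset.sum_nonneg fun _ _ => by positivity) (sum_int hq r) D
  have h3 : ∀ x ∈ Sph D r, ((1 : ℝ) / 2) ^ (4 * D) ≤ ∏ i, ((1 : ℝ) / 2) ^ ((x i).natAbs / q) := by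
    intro x hx
    rw [Finset.prod_pow_eq_pow_sum]
    exact pow_le_pow_of_le_one (by norm_num) (by norm_num) (sum_div hq hr (mem_Sph.1 hx))
  have h4 : (Sph D r).card • ((1 : ℝ) / 2) ^ (4 * D) ≤
      ∑ x ∈ Sph D r, ∏ i, ((1 : ℝ) / 2) ^ ((x i).natAbs / q) :=
    Finset.card_nsmul_le_sum _ _ _ h3
  have h5 : ∑ x ∈ Sph D r, ∏ i, ((1 : ℝ) / 2) ^ ((x i).natAbs / q) ≤
      ∑ x ∈ Fintype.piFinset fun _ : Fin D => Icc (-(r : ℤ)) r,
        ∏ i, ((1 : ℝ) / 2) ^ ((x i).natAbs / q) :=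
    Finset.sum_le_sum_of_subset_of_nonneg (Finset.filter_subset _ _) fun x _ _ => hw0 x
  rw [nsmul_eq_mul] at h4
  have h6 : ((Sph D r).card : ℝ) * (1 / 2) ^ (4 * D) ≤ (4 * q) ^ D := h4.trans (h5.trans h1)
  have h7 : ((Sph D r).card : ℝ) ≤ (64 * q) ^ D := by
    have h8 : ((1 : ℝ) / 2) ^ (4 * D) * 16 ^ D = 1 := by
      rw [pow_mul, ← mul_pow]
      norm_num
    calc ((Sph D r).card : ℝ) = (Sph D r).card * ((1 / 2) ^ (4 * D) * 16 ^ D) := by rw [h8, mul_one]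
      _ = ((Sph D r).card : ℝ) * (1 / 2) ^ (4 * D) * 16 ^ D := by ring
      _ ≤ (4 * q) ^ D * 16 ^ D := mul_le_mul_of_nonneg_right h6 (by positivity)
      _ = (64 * q) ^ D := by
          rw [← mul_pow]
          ring_nf
  exact_mod_cast h7

end Pool.Agent.RSV
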