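import Pool.Agent.RSV.CDefs

/-!
# RSV-Emb: vertices for the points
-/

set_option autoImplicit false

namespace Pool.Agent.RSV

open Finset

theorem exists_VInj {D n : ℕ} (hn : 1 ≤ n) (r : Fin 3 → ℕ) (h : ∑ k, (Sph D (r k)).card ≤ n) :
    ∃ v : Fin 3 → (Fin D → ℤ) → Fin n, VInj r v := by
  classical
  let E : Finset (Σ _ : Fin 3, Fin D → ℤ) :=
    (univ : Finset (Fin 3)).sigma (fun k => Sph D (r k))
  have hE : E.card ≤ n := by
    show ((univ : Finset (Fin 3)).sigma (fun k => Sph D (r k))).card ≤ n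
    rw [card_sigma]
    exact h
  have hmem : ∀ k x, x ∈ Sph D (r k) → (⟨k, x⟩ : Σ _ : Fin 3, Fin D → ℤ) ∈ E := by
    intro k x hx
    exact mem_sigma.2 ⟨mem_univ _, hx⟩
  obtain ⟨f⟩ : Nonempty (E ↪ Fin n) := Function.Embedding.nonempty_of_card_le (by
    rw [Fintype.card_coe, Fintype.card_fin]; exact hE)
  refine ⟨fun k x => if hx : (⟨k, x⟩ : Σ _ : Fin 3, Fin D → ℤ) ∈ E then f ⟨_, hx⟩ else ⟨0, hn⟩,
    ?_⟩
  intro k l x y hx hy hxy
  beta_reduce at hxy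
  rw [dif_pos (hmem k x hx), dif_pos (hmem l y hy)] at hxy
  have h1 := f.injective hxy
  rw [Subtype.mk.injEq, Sigma.mk.injEq] at h1
  exact ⟨h1.1, eq_of_heq h1.2⟩

end Pool.Agent.RSV
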