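import Mathlib

/-!
# RSV-NumC: numerical estimates for the construction
-/

set_option autoImplicit false

namespace Pool.Agent.RSV

private theorem numC_exp (a : ℝ) (m : ℕ) (h : a ≤ (2.7 : ℝ) ^ m) : a ≤ Real.exp m := by
  have h1 : Real.exp (m : ℝ) = Real.exp 1 ^ m := by
    rw [← Real.exp_nat_mul, mul_one]
  rw [h1]
  refine h.trans (pow_le_pow_left₀ (by norm_num) ?_ m)
  have := Real.exp_one_gt_d9
  linarith

theorem numC {D n : ℕ} (hD : 1 ≤ D) (hn : Real.exp (12 * (D : ℝ) ^ 2) ≤ n) : ∃ q : ℕ, 1 ≤ q ∧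
    3 * (64 * q) ^ D ≤ n ∧ ∀ h : ℕ, (2 * q) ^ (2 * D) ≤ (5 * D * q ^ 2) ^ 3 * h →
      (n : ℝ) ^ (2 - 7 / (D : ℝ)) ≤ h := by
  have hd : (1 : ℝ) ≤ D := by exact_mod_cast hD
  have hd0 : (0 : ℝ) < D := by linarith
  have hN : (0 : ℝ) < n := lt_of_lt_of_le (Real.exp_pos _) hn
  obtain ⟨y, hy⟩ : ∃ y : ℝ, y = ((n : ℝ) / 3) ^ (1 / (D : ℝ)) := ⟨_, rfl⟩
  obtain ⟨u, hu⟩ : ∃ u : ℝ, u = (n : ℝ) ^ (1 / (D : ℝ)) := ⟨_, rfl⟩
  have hy0 : 0 < y := by rw [hy]; positivity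
  have hu0 : 0 < u := by rw [hu]; positivity
  have hyu : y ≤ u := by
    rw [hy, hu]
    apply Real.rpow_le_rpow (by positivity) (by linarith) (by positivity)
  have hyD : y ^ D = (n : ℝ) / 3 := by
    rw [hy, ← Real.rpow_natCast, ← Real.rpow_mul (by positivity), one_div_mul_cancel hd0.ne',
      Real.rpow_one]
  have huD : u ^ D = (n : ℝ) := by
    rw [hu, ← Real.rpow_natCast, ← Real.rpow_mul (by positivity), one_div_mul_cancel hd0.ne',
      Real.rpow_one]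
  -- 64 ≤ y
  have h64 : 64 ≤ y := by
    have h1 : (64 : ℝ) ^ D ≤ y ^ D := by
      rw [hyD, le_div_iff₀ (by norm_num)]
      refine le_trans ?_ hn
      have h2 : (64 : ℝ) ≤ Real.exp ((5 : ℕ) : ℝ) := numC_exp 64 5 (by norm_num)
      have h3 : (3 : ℝ) ≤ Real.exp ((2 : ℕ) : ℝ) := numC_exp 3 2 (by norm_num)
      calc (64 : ℝ) ^ D * 3 ≤ Real.exp ((5 : ℕ) : ℝ) ^ D * Real.exp ((2 : ℕ) : ℝ) :=
            mul_le_mul (pow_le_pow_left₀ (by norm_num) h2 D) h3 (by norm_num) (by positivity)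
        _ = Real.exp (D * 5 + 2) := by
            rw [← Real.exp_nat_mul, ← Real.exp_add]; norm_num
        _ ≤ Real.exp (12 * (D : ℝ) ^ 2) := by
            apply Real.exp_le_exp.2
            nlinarith
    exact le_of_pow_le_pow_left₀ (by omega) hy0.le h1
  have hbig : (D : ℝ) ^ 3 * 4096 ^ D ≤ u := by
    have h1 : ((D : ℝ) ^ 3 * 4096 ^ D) ^ D ≤ u ^ D := by
      rw [huD]
      refine le_trans ?_ hn
      have h2 : (4096 : ℝ) ≤ Real.exp ((9 : ℕ) : ℝ) := numC_exp 4096 9 (by norm_num)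
      have h3 : (D : ℝ) ≤ Real.exp D := by
        have := Real.add_one_le_exp (D : ℝ)
        linarith
      have h4 : (D : ℝ) ^ 3 * 4096 ^ D ≤ Real.exp (12 * D) := by
        calc (D : ℝ) ^ 3 * 4096 ^ D ≤ Real.exp D ^ 3 * Real.exp ((9 : ℕ) : ℝ) ^ D :=
              mul_le_mul (pow_le_pow_left₀ hd0.le h3 3) (pow_le_pow_left₀ (by norm_num) h2 D)
                (by positivity) (by positivity)
          _ = Real.exp (12 * D) := by
              rw [← Real.exp_nat_mul, ← Real.exp_nat_mul, ← Real.exp_add]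
              congr 1
              push_cast
              ring
      calc ((D : ℝ) ^ 3 * 4096 ^ D) ^ D ≤ Real.exp (12 * D) ^ D :=
            pow_le_pow_left₀ (by positivity) h4 D
        _ = Real.exp (12 * (D : ℝ) ^ 2) := by
            rw [← Real.exp_nat_mul]
            congr 1
            ring
    exact le_of_pow_le_pow_left₀ (by omega) hu0.le h1
  obtain ⟨q, hq⟩ : ∃ q : ℕ, q = ⌊y / 64⌋₊ := ⟨_, rfl⟩
  have ht1 : 1 ≤ y / 64 := by
    rw [le_div_iff₀ (by norm_num)]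
    linarith
  have hq1 : 1 ≤ q := by
    rw [hq]
    exact Nat.le_floor (by exact_mod_cast ht1)
  have hq2 : (q : ℝ) ≤ y / 64 := by
    rw [hq]
    exact Nat.floor_le (by positivity)
  have hq3 : y / 64 < q + 1 := by
    rw [hq]
    exact Nat.lt_floor_add_one _
  have hq1' : (1 : ℝ) ≤ q := by exact_mod_cast hq1
  refine ⟨q, hq1, ?_, ?_⟩
  · have h1 : (3 : ℝ) * (64 * q) ^ D ≤ n := by
      have h2 : (64 * (q : ℝ)) ^ D ≤ y ^ D := pow_le_pow_left₀ (by positivity) (by linarith) D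
      rw [hyD] at h2
      linarith
    exact_mod_cast h1
  · intro h hh
    have hh' : (2 * (q : ℝ)) ^ (2 * D) ≤ (5 * D * q ^ 2) ^ 3 * h := by exact_mod_cast hh
    have h1 : (y / 64) ^ (2 * D) ≤ (2 * (q : ℝ)) ^ (2 * D) :=
      pow_le_pow_left₀ (by positivity) (by linarith) _
    have h2 : (y / 64) ^ (2 * D) = (n : ℝ) ^ 2 / 9 / 4096 ^ D := by
      rw [div_pow, mul_comm 2 D, pow_mul, hyD, mul_comm D 2, pow_mul]
      norm_num
      ring
    have h3 : (5 * (D : ℝ) * q ^ 2) ^ 3 ≤ 125 * (D : ℝ) ^ 3 * (y / 64) ^ 6 := by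
      have h4 : (q : ℝ) ^ 6 ≤ (y / 64) ^ 6 := pow_le_pow_left₀ (by positivity) hq2 6
      calc (5 * (D : ℝ) * q ^ 2) ^ 3 = 125 * (D : ℝ) ^ 3 * (q : ℝ) ^ 6 := by ring
        _ ≤ 125 * (D : ℝ) ^ 3 * (y / 64) ^ 6 := mul_le_mul_of_nonneg_left h4 (by positivity)
    have h0 : (0 : ℝ) ≤ h := Nat.cast_nonneg h
    have h5 : (n : ℝ) ^ 2 / 9 / 4096 ^ D ≤ 125 * (D : ℝ) ^ 3 * (y / 64) ^ 6 * h := by
      rw [← h2]
      exact h1.trans (hh'.trans (mul_le_mul_of_nonneg_right h3 h0))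
    have h6 : (n : ℝ) ^ 2 ≤ u ^ 7 * h := by
      rw [div_div, div_le_iff₀ (by positivity)] at h5
      have h7 : (y / 64) ^ 6 ≤ (u / 64) ^ 6 :=
        pow_le_pow_left₀ (by positivity) (by linarith) 6
      calc (n : ℝ) ^ 2 ≤ 125 * (D : ℝ) ^ 3 * (y / 64) ^ 6 * h * (9 * 4096 ^ D) := h5
        _ = 1125 * ((D : ℝ) ^ 3 * 4096 ^ D) * (y / 64) ^ 6 * h := by ring
        _ ≤ 1125 * u * (u / 64) ^ 6 * h := by
            apply mul_le_mul_of_nonneg_right _ h0
            apply mul_le_mul _ h7 (by positivity) (by positivity)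
            linarith
        _ = 1125 / 64 ^ 6 * (u ^ 7 * h) := by ring
        _ ≤ 1 * (u ^ 7 * h) := mul_le_mul_of_nonneg_right (by norm_num) (by positivity)
        _ = u ^ 7 * h := one_mul _
    have h8 : (n : ℝ) ^ (2 - 7 / (D : ℝ)) * u ^ 7 = (n : ℝ) ^ 2 := by
      have h9 : u ^ 7 = (n : ℝ) ^ (7 / (D : ℝ)) := by
        rw [hu, ← Real.rpow_natCast, ← Real.rpow_mul hN.le]
        congr 1
        push_cast
        ring
      rw [h9, ← Real.rpow_add hN, sub_add_cancel]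
      norm_num
    have h10 : (n : ℝ) ^ (2 - 7 / (D : ℝ)) * u ^ 7 ≤ h * u ^ 7 := by
      rw [h8]
      linarith
    exact le_of_mul_le_mul_right h10 (by positivity)

end Pool.Agent.RSV
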