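import Pool.Agent.RSV.CDefs

/-!
# RSV-Pig (.8h): three radii with many triples

PLAN. `B := Fintype.piFinset (fun _ : Fin D => Icc (-(q:ℤ)) q)`, `B.card = (2 q + 1)^D` (`Fintype.card_piFinset`, `Int.card_Icc`). For `x, y ∈ B`: `sq x ≤ D q²`,
`sq y ≤ D q²`, `sq (x + y) ≤ 4 D q²`. Let `M := 4 * D * q^2`, `T := range (M+1) ×ˢ range (M+1) ×ˢ range (M+1)` and
`φ (x, y) := ((sq x).toNat, (sq y).toNat, (sq (x + y)).toNat) ∈ T`. `T.card = (M+1)^3 ≤ (5 * D * q^2)^3`. By `card_eq_sum_card_fiberwise`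
`(2 q + 1)^(2 D) = ∑ ρ ∈ T, #fibre`; if all `(5 D q²)^3 * #fibre(ρ) < (2 q)^(2 D)` then the sum times `(5 D q²)^3` is less than `T.card * (2 q)^(2 D)`
`≤ (5 D q²)^3 * (2 q)^(2 D)`, contradiction. So some `ρ = (r1, r2, r3)` has a large fibre; `r := ![r1, r2, r3]`; the map `(x, y) ↦ ![x, y, -(x + y)]` is an injection
of the fibre into `Cf D r` (`mem_Cf`, `mem_Sph`, `sq_neg`; `card_le_card_of_injOn`).
-/

set_option autoImplicit false

namespace Pool.Agent.RSV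

open Finset

private theorem mem_box {D q : ℕ} {x : Fin D → ℤ}
    (h : x ∈ Fintype.piFinset fun _ : Fin D => Icc (-(q : ℤ)) q) (i : Fin D) : -(q : ℤ) ≤ x i ∧ x i ≤ q :=
  mem_Icc.1 (Fintype.mem_piFinset.1 h i)

private theorem sq_box {D q : ℕ} {x : Fin D → ℤ}
    (h : x ∈ Fintype.piFinset fun _ : Fin D => Icc (-(q : ℤ)) q) : sq x ≤ D * (q : ℤ) ^ 2 := by
  unfold sq
  calc ∑ i, x i ^ 2 ≤ ∑ _i : Fin D, (q : ℤ) ^ 2 := by
        refine Finset.sum_le_sum fun i _ => ?_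
        obtain ⟨h1, h2⟩ := mem_box h i
        exact sq_le_sq' h1 h2
    _ = D * (q : ℤ) ^ 2 := by
        rw [Finset.sum_const, Finset.card_univ, Fintype.card_fin, nsmul_eq_mul]

private theorem sq_box2 {D q : ℕ} {x y : Fin D → ℤ}
    (hx : x ∈ Fintype.piFinset fun _ : Fin D => Icc (-(q : ℤ)) q)
    (hy : y ∈ Fintype.piFinset fun _ : Fin D => Icc (-(q : ℤ)) q) : sq (x + y) ≤ 4 * D * (q : ℤ) ^ 2 := by
  unfold sq
  calc ∑ i, (x + y) i ^ 2 ≤ ∑ _i : Fin D, (2 * (q : ℤ)) ^ 2 := by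
        refine Finset.sum_le_sum fun i _ => ?_
        obtain ⟨h1, h2⟩ := mem_box hx i
        obtain ⟨h3, h4⟩ := mem_box hy i
        rw [Pi.add_apply]
        exact sq_le_sq' (by linarith) (by linarith)
    _ = 4 * D * (q : ℤ) ^ 2 := by
        rw [Finset.sum_const, Finset.card_univ, Fintype.card_fin, nsmul_eq_mul]
        ring

private theorem toNat_lt {a : ℤ} {n : ℕ} (h : a ≤ n) : a.toNat < n + 1 := by
  omega

theorem exists_radii {D q : ℕ} (hD : 1 ≤ D) (hq : 1 ≤ q) : ∃ r : Fin 3 → ℕ,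
    (∀ k, r k ≤ 4 * D * q ^ 2) ∧ (2 * q) ^ (2 * D) ≤ (5 * D * q ^ 2) ^ 3 * (Cf D r).card := by
  classical
  set B : Finset (Fin D → ℤ) := Fintype.piFinset fun _ : Fin D => Icc (-(q : ℤ)) q with hB
  have hBc : B.card = (2 * q + 1) ^ D := by
    rw [hB, Fintype.card_piFinset]
    have h1 : ∀ i : Fin D, (Icc (-(q : ℤ)) q).card = 2 * q + 1 := by
      intro i
      rw [Int.card_Icc]
      omega
    rw [Finset.prod_congr rfl fun i _ => h1 i, Finset.prod_const, Finset.card_univ, Fintype.card_fin]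
  set T : Finset (ℕ × ℕ × ℕ) := range (4 * D * q ^ 2 + 1) ×ˢ (range (4 * D * q ^ 2 + 1) ×ˢ
    range (4 * D * q ^ 2 + 1)) with hT
  have hDq : 1 ≤ D * q ^ 2 := Nat.mul_pos hD (pow_pos hq 2)
  have hTc : T.card ≤ (5 * D * q ^ 2) ^ 3 := by
    rw [hT, card_product, card_product, card_range]
    calc (4 * D * q ^ 2 + 1) * ((4 * D * q ^ 2 + 1) * (4 * D * q ^ 2 + 1)) = (4 * D * q ^ 2 + 1) ^ 3 := by ring
      _ ≤ (5 * D * q ^ 2) ^ 3 := Nat.pow_le_pow_left (by nlinarith) 3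
  set φ : (Fin D → ℤ) × (Fin D → ℤ) → ℕ × ℕ × ℕ := fun p =>
    ((sq p.1).toNat, (sq p.2).toNat, (sq (p.1 + p.2)).toNat) with hφ
  have hmaps : ∀ p ∈ B ×ˢ B, φ p ∈ T := by
    intro p hp
    obtain ⟨h1, h2⟩ := mem_product.1 hp
    have e1 := sq_box h1
    have e2 := sq_box h2
    have e3 := sq_box2 h1 h2
    have e4 : (0 : ℤ) ≤ D * (q : ℤ) ^ 2 := by positivity
    have f1 : sq p.1 ≤ ((4 * D * q ^ 2 : ℕ) : ℤ) := by
      push_cast
      linarith
    have f2 : sq p.2 ≤ ((4 * D * q ^ 2 : ℕ) : ℤ) := by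
      push_cast
      linarith
    have f3 : sq (p.1 + p.2) ≤ ((4 * D * q ^ 2 : ℕ) : ℤ) := by
      push_cast
      linarith
    exact mem_product.2 ⟨mem_range.2 (toNat_lt f1), mem_product.2 ⟨mem_range.2 (toNat_lt f2),
      mem_range.2 (toNat_lt f3)⟩⟩
  have hex : ∃ ρ ∈ T, (2 * q) ^ (2 * D) ≤ (5 * D * q ^ 2) ^ 3 * ((B ×ˢ B).filter fun p => φ p = ρ).card := by
    by_contra hcon
    push Not at hcon
    have hne : T.Nonempty := ⟨(0, 0, 0), by simp [hT]⟩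
    have h1 := Finset.card_eq_sum_card_fiberwise hmaps
    have h2 : ∑ ρ ∈ T, (5 * D * q ^ 2) ^ 3 * ((B ×ˢ B).filter fun p => φ p = ρ).card <
        ∑ _ρ ∈ T, (2 * q) ^ (2 * D) := Finset.sum_lt_sum_of_nonempty hne hcon
    rw [← Finset.mul_sum, ← h1, Finset.sum_const, smul_eq_mul, card_product, hBc] at h2
    have h3 : T.card * (2 * q) ^ (2 * D) ≤ (5 * D * q ^ 2) ^ 3 * ((2 * q + 1) ^ D * (2 * q + 1) ^ D) := by
      refine Nat.mul_le_mul hTc ?_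
      rw [← pow_add, two_mul D]
      exact Nat.pow_le_pow_left (Nat.le_succ _) _
    exact absurd (lt_of_lt_of_le h2 h3) (lt_irrefl _)
  obtain ⟨⟨r1, r2, r3⟩, hρ, hle⟩ := hex
  obtain ⟨g1, g23⟩ := mem_product.1 hρ
  obtain ⟨g2, g3⟩ := mem_product.1 g23
  refine ⟨![r1, r2, r3], ?_, hle.trans (Nat.mul_le_mul_left _ ?_)⟩
  · intro k
    fin_cases k
    · exact Nat.lt_succ_iff.1 (mem_range.1 g1)
    · exact Nat.lt_succ_iff.1 (mem_range.1 g2)
    · exact Nat.lt_succ_iff.1 (mem_range.1 g3)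
  · refine Finset.card_le_card_of_injOn
      (fun p : (Fin D → ℤ) × (Fin D → ℤ) => (![p.1, p.2, -(p.1 + p.2)] : Fin 3 → Fin D → ℤ)) ?_ ?_
    · intro p hp
      have hp2 := (mem_filter.1 (mem_coe.1 hp)).2
      rw [hφ, Prod.mk.injEq, Prod.mk.injEq] at hp2
      obtain ⟨e1, e2, e3⟩ := hp2
      refine mem_coe.2 (mem_Cf.2 ⟨fun k => mem_Sph.2 ?_, ?_⟩)
      · fin_cases k
        · show sq p.1 = (r1 : ℤ)
          rw [← e1, Int.toNat_of_nonneg (sq_nonneg' _)]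
        · show sq p.2 = (r2 : ℤ)
          rw [← e2, Int.toNat_of_nonneg (sq_nonneg' _)]
        · show sq (-(p.1 + p.2)) = (r3 : ℤ)
          rw [← e3, Int.toNat_of_nonneg (sq_nonneg' _), sq_neg]
      · rw [Fin.sum_univ_three]
        show p.1 + p.2 + -(p.1 + p.2) = 0
        rw [add_neg_cancel]
    · intro p _ p' _ hpp
      have h0 := congrFun hpp 0
      have h1 := congrFun hpp 1
      exact Prod.ext h0 h1

end Pool.Agent.RSV
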