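import Pool.Agent.RSV.Defs

/-!
# RSV-NT: (6,3)-freeness and `NoTri`
-/

set_option autoImplicit false

namespace Pool.Agent.RSV

open Finset

theorem noTri_of_sixThree {n : ℕ} (hn : 6 ≤ n) {H : Finset (Finset (Fin n))} (h : SixThree H) :
    NoTri H := by
  intro e he f hf g hg hef hfg heg
  by_contra hcon
  obtain ⟨S, hS1, hS2⟩ := Finset.exists_superset_card_eq (s := e ∪ f ∪ g) (n := 6)
    (not_lt.1 hcon) (by rw [Fintype.card_fin]; exact hn)
  have h1 := h S hS2
  have h2 : ({e, f, g} : Finset (Finset (Fin n))) ⊆ H.filter (fun e => e ⊆ S) := by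
    intro x hx
    rw [mem_filter]
    rw [mem_insert, mem_insert, mem_singleton] at hx
    rcases hx with rfl | rfl | rfl
    · exact ⟨he, fun a ha => hS1 (mem_union_left _ (mem_union_left _ ha))⟩
    · exact ⟨hf, fun a ha => hS1 (mem_union_left _ (mem_union_right _ ha))⟩
    · exact ⟨hg, fun a ha => hS1 (mem_union_right _ ha)⟩
  have h3 : ({e, f, g} : Finset (Finset (Fin n))).card = 3 := by
    rw [card_eq_three]
    exact ⟨e, f, g, hef, heg, hfg, rfl⟩
  have h4 := card_le_card h2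
  omega

theorem sixThree_of_noTri {V : Type*} [DecidableEq V] {H : Finset (Finset V)} (h : NoTri H) :
    SixThree H := by
  intro S hS
  by_contra hcon
  have h1 : 2 < (H.filter (fun e => e ⊆ S)).card := by omega
  obtain ⟨e, f, g, he, hf, hg, hef, heg, hfg⟩ := two_lt_card_iff.1 h1
  rw [mem_filter] at he hf hg
  have h2 := h e he.1 f hf.1 g hg.1 hef hfg heg
  have h3 := card_le_card (union_subset (union_subset he.2 hf.2) hg.2)
  omega

theorem noTri_of_linear {V : Type*} [DecidableEq V] {H : Finset (Finset V)} (h3 : Three H)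
    (hL : Linear H)
    (h : ∀ e ∈ H, ∀ f ∈ H, ∀ g ∈ H, ∀ p q s : V, p ≠ q → q ≠ s → p ≠ s → p ∈ e → p ∈ f → q ∈ f →
      q ∈ g → s ∈ e → s ∈ g → e ≠ f → f ≠ g → e ≠ g → False) : NoTri H := by
  intro e he f hf g hg hef hfg heg
  by_contra hcon
  have c1 := h3 e he
  have c2 := h3 f hf
  have c3 := h3 g hg
  have l1 := hL e he f hf hef
  have l2 := hL f hf g hg hfg
  have l3 := hL e he g hg heg
  have u1 := card_union_add_card_inter e f
  have u2 := card_union_add_card_inter (e ∪ f) g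
  have hi : (e ∪ f) ∩ g = (e ∩ g) ∪ (f ∩ g) := union_inter_distrib_right e f g
  rw [hi] at u2
  have u3 := card_union_le (e ∩ g) (f ∩ g)
  obtain ⟨p, hp⟩ := card_eq_one.1 (show (e ∩ f).card = 1 by omega)
  obtain ⟨q, hq⟩ := card_eq_one.1 (show (f ∩ g).card = 1 by omega)
  obtain ⟨s, hs⟩ := card_eq_one.1 (show (e ∩ g).card = 1 by omega)
  have hp' : p ∈ e ∩ f := by rw [hp]; exact mem_singleton_self p
  have hq' : q ∈ f ∩ g := by rw [hq]; exact mem_singleton_self q
  have hs' : s ∈ e ∩ g := by rw [hs]; exact mem_singleton_self s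
  rw [mem_inter] at hp' hq' hs'
  have hqs : q ≠ s := by
    intro hqs
    rw [hs, hq, hqs, union_self, card_singleton] at u2
    omega
  have hpq : p ≠ q := by
    intro hpq
    have h1 : q ∈ e ∩ g := mem_inter.2 ⟨hpq ▸ hp'.1, hq'.2⟩
    rw [hs, mem_singleton] at h1
    exact hqs h1
  have hps : p ≠ s := by
    intro hps
    have h1 : s ∈ f ∩ g := mem_inter.2 ⟨hps ▸ hp'.2, hs'.2⟩
    rw [hq, mem_singleton] at h1
    exact hqs h1.symm
  exact h e he f hf g hg p q s hpq hqs hps hp'.1 hp'.2 hq'.1 hq'.2 hs'.1 hs'.2 hef hfg heg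

end Pool.Agent.RSV
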