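import Pool.Agent.RSV.CDefs
import Pool.Agent.RSV.NT

/-!
# RSV-SphF (1.0h): the sphere hypergraph is (6,3)-free

Common vertices of two edges are common points at the same index; the parallelogram identity.
-/

set_option autoImplicit false

namespace Pool.Agent.RSV

open Finset

variable {V : Type*} [DecidableEq V] {D : ℕ} {r : Fin 3 → ℕ} {v : Fin 3 → (Fin D → ℤ) → V}

omit [DecidableEq V] in
private theorem sf_idx (hv : VInj r v) {t : Fin 3 → Fin D → ℤ} (ht : t ∈ Cf D r) {k l : Fin 3}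
    (h : v k (t k) = v l (t l)) : k = l :=
  (hv k l (t k) (t l) ((mem_Cf.1 ht).1 k) ((mem_Cf.1 ht).1 l) h).1

private theorem sf_common (hv : VInj r v) {t t' : Fin 3 → Fin D → ℤ} (ht : t ∈ Cf D r)
    (ht' : t' ∈ Cf D r) {p : V} (hp : p ∈ edge v t) (hp' : p ∈ edge v t') :
    ∃ a, p = v a (t a) ∧ t a = t' a := by
  unfold edge at hp hp'
  obtain ⟨k, _, hk⟩ := mem_image.1 hp
  obtain ⟨l, _, hl⟩ := mem_image.1 hp'
  obtain ⟨h1, h2⟩ := hv k l (t k) (t' l) ((mem_Cf.1 ht).1 k) ((mem_Cf.1 ht').1 l) (hk.trans hl.symm)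
  subst h1
  exact ⟨k, hk.symm, h2⟩

private theorem sf_inj (hv : VInj r v) {t t' : Fin 3 → Fin D → ℤ} (ht : t ∈ Cf D r)
    (ht' : t' ∈ Cf D r) (h : edge v t = edge v t') : t = t' := by
  funext k
  have h1 : v k (t k) ∈ edge v t := mem_image_of_mem _ (mem_univ k)
  have h2 : v k (t k) ∈ edge v t' := h ▸ h1
  obtain ⟨a, ha, hb⟩ := sf_common hv ht ht' h1 h2
  have h3 := sf_idx hv ht ha
  subst h3
  exact hb

private theorem sf_agree {t t' : Fin 3 → Fin D → ℤ} (ht : t ∈ Cf D r)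
    (ht' : t' ∈ Cf D r) {a b : Fin 3} (hab : a ≠ b) (h1 : t a = t' a) (h2 : t b = t' b) : t = t' := by
  have s1 := (mem_Cf.1 ht).2
  have s2 := (mem_Cf.1 ht').2
  rw [sum_third t hab] at s1
  rw [sum_third t' hab] at s2
  have h3 : t (-(a + b)) = t' (-(a + b)) := by
    rw [h1, h2] at s1
    have := s1.trans s2.symm
    exact add_left_cancel this
  funext k
  by_cases hka : k = a
  · rw [hka, h1]
  · by_cases hkb : k = b
    · rw [hkb, h2]
    · rw [eq_third a b k hab hka hkb, h3]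

private theorem sf_neg {t : Fin 3 → Fin D → ℤ} (ht : t ∈ Cf D r) {a b c : Fin 3} (hab : a ≠ b)
    (hca : c ≠ a) (hcb : c ≠ b) : t c = -(t a + t b) := by
  have s1 := (mem_Cf.1 ht).2
  rw [sum_third t hab, ← eq_third a b c hab hca hcb] at s1
  exact (neg_eq_of_add_eq_zero_right s1).symm

theorem hyp_three (hv : VInj r v) : Three (hyp r v) := by
  intro e he
  unfold hyp at he
  obtain ⟨t, ht, rfl⟩ := mem_image.1 he
  unfold edge
  rw [card_image_of_injective univ (fun k l h => sf_idx hv ht h), card_univ, Fintype.card_fin]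

theorem hyp_card (hv : VInj r v) : (hyp r v).card = (Cf D r).card := by
  unfold hyp
  exact card_image_of_injOn fun t ht t' ht' h => sf_inj hv (mem_coe.1 ht) (mem_coe.1 ht') h

private theorem sf_lin (hv : VInj r v) : Linear (hyp r v) := by
  intro e he f hf hef
  unfold hyp at he hf
  obtain ⟨t, ht, rfl⟩ := mem_image.1 he
  obtain ⟨t', ht', rfl⟩ := mem_image.1 hf
  by_contra hcon
  obtain ⟨p, hp, q, hq, hpq⟩ := one_lt_card.1 (not_le.1 hcon)
  rw [mem_inter] at hp hq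
  obtain ⟨a, ha1, ha2⟩ := sf_common hv ht ht' hp.1 hp.2
  obtain ⟨b, hb1, hb2⟩ := sf_common hv ht ht' hq.1 hq.2
  have hab : a ≠ b := by
    rintro rfl
    exact hpq (ha1.trans hb1.symm)
  exact hef (by rw [sf_agree ht ht' hab ha2 hb2])

theorem hyp_noTri (hv : VInj r v) : NoTri (hyp r v) := by
  refine noTri_of_linear (hyp_three hv) (sf_lin hv) ?_
  intro e he f hf g hg p q s hpq hqs hps hpe hpf hqf hqg hse hsg hef _ _
  unfold hyp at he hf hg
  obtain ⟨t, ht, rfl⟩ := mem_image.1 he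
  obtain ⟨t', ht', rfl⟩ := mem_image.1 hf
  obtain ⟨t'', ht'', rfl⟩ := mem_image.1 hg
  obtain ⟨a, ha1, ha2⟩ := sf_common hv ht ht' hpe hpf
  obtain ⟨b, hb1, hb2⟩ := sf_common hv ht' ht'' hqf hqg
  obtain ⟨c, hc1, hc2⟩ := sf_common hv ht ht'' hse hsg
  have hab : a ≠ b := by
    rintro rfl
    rw [ha2, ← hb1] at ha1
    exact hpq ha1
  have hac : a ≠ c := by
    rintro rfl
    exact hps (ha1.trans hc1.symm)
  have hbc : b ≠ c := by
    rintro rfl
    rw [hc2, ← hb2, ← hb1] at hc1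
    exact hqs hc1.symm
  have e1 : t b = -(t a + t c) := sf_neg ht hac hab.symm hbc
  have e2 : t' c = -(t' a + t' b) := sf_neg ht' hab hac.symm hbc.symm
  have e3 : t'' a = -(t'' b + t'' c) := sf_neg ht'' hbc hab hac
  have q1 : sq (t b) = sq (t' b) :=
    (mem_Sph.1 ((mem_Cf.1 ht).1 b)).trans (mem_Sph.1 ((mem_Cf.1 ht').1 b)).symm
  have q2 : sq (t' c) = sq (t c) :=
    (mem_Sph.1 ((mem_Cf.1 ht').1 c)).trans (mem_Sph.1 ((mem_Cf.1 ht).1 c)).symm
  have q3 : sq (t'' a) = sq (t a) :=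
    (mem_Sph.1 ((mem_Cf.1 ht'').1 a)).trans (mem_Sph.1 ((mem_Cf.1 ht).1 a)).symm
  rw [e1, sq_neg, sq_add] at q1
  rw [e2, ← ha2, sq_neg, sq_add] at q2
  rw [e3, ← hb2, ← hc2, sq_neg, sq_add] at q3
  have q0 : sq (t a + t' b + t c) = 0 := by
    rw [sq_add, sq_add, ip_add]
    linear_combination q1 + q2 + q3
  have h0 := eq_zero_of_sq q0
  have h1 : t b = t' b := by
    rw [e1]
    have h2 : t a + t c + t' b = 0 := by
      rw [← h0]
      abel
    exact neg_eq_of_add_eq_zero_right h2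
  exact hef (by rw [sf_agree ht ht' hab ha2 h1])

end Pool.Agent.RSV
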