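import Mathlib

/-!
# RSV-Chn: triangular systems of vectors and functionals
-/

set_option autoImplicit false

namespace Pool.Agent.RSV

open Finset

theorem chain_card {ι : Type*} [Fintype ι] {m : ℕ} (f : Fin m → ι → ℚ)
    (h : ∀ k : Fin m, ∃ φ : (ι → ℚ) →ₗ[ℚ] ℚ, (∀ i < k, φ (f i) = 0) ∧ φ (f k) ≠ 0) :
    m ≤ Fintype.card ι := by
  classical
  have hli : LinearIndependent ℚ f := by
    rw [Fintype.linearIndependent_iff]
    intro g hg
    by_contra hne
    push Not at hne
    obtain ⟨i0, hi0⟩ := hne
    obtain ⟨k, hk, hmax⟩ := Finset.exists_max_image (univ.filter (fun i => g i ≠ 0)) id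
      ⟨i0, by rw [mem_filter]; exact ⟨mem_univ _, hi0⟩⟩
    rw [mem_filter] at hk
    obtain ⟨φ, hφ1, hφ2⟩ := h k
    have h1 : φ (∑ i, g i • f i) = 0 := by rw [hg, map_zero]
    rw [map_sum, Finset.sum_eq_single k] at h1
    · rw [map_smul, smul_eq_mul] at h1
      rcases mul_eq_zero.1 h1 with h2 | h2
      · exact hk.2 h2
      · exact hφ2 h2
    · intro i _ hik
      rw [map_smul, smul_eq_mul]
      rcases lt_or_gt_of_ne hik with h2 | h2
      · rw [hφ1 i h2, mul_zero]
      · have h3 : g i = 0 := by
          by_contra h4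
          have h5 := hmax i (by rw [mem_filter]; exact ⟨mem_univ _, h4⟩)
          exact absurd h5 (not_le.2 h2)
        rw [h3, zero_mul]
    · intro h2
      exact absurd (mem_univ _) h2
  have h1 := hli.fintype_card_le_finrank
  rw [Fintype.card_fin, Module.finrank_fintype_fun_eq_card] at h1
  exact h1

end Pool.Agent.RSV
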