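import Pool.Agent.RSV.Adj
import Pool.Agent.RSV.Chn

/-!
# RSV-SphV: the VC-dimension of the sphere hypergraph

A shattered set `s_1, .., s_m` gives the vectors `(x_i, e_(a_i))` of dimension `D + 3` (`x_i` the point, `a_i` the number of the
sphere of `s_i`); a vertex whose neighbourhood contains `s_1, .., s_(k-1)` and does not contain `s_k` gives a linear functional
which vanishes on the first `k - 1` vectors and does not vanish on the `k`-th.
-/

set_option autoImplicit false

namespace Pool.Agent.RSV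

open Finset

variable {V : Type*} [DecidableEq V] [Fintype V] {D : ℕ} {r : Fin 3 → ℕ}
  {v : Fin 3 → (Fin D → ℤ) → V}

/-- the vector of a point `x` of the `a`-th sphere -/
private def vecf (a : Fin 3) (x : Fin D → ℤ) : Fin D ⊕ Fin 3 → ℚ :=
  Sum.elim (fun j => (x j : ℚ)) (fun l => if l = a then 1 else 0)

/-- the functional of a point `y` of the `b`-th sphere -/
private def funf (r : Fin 3 → ℕ) (b : Fin 3) (y : Fin D → ℤ) :
    (Fin D ⊕ Fin 3 → ℚ) →ₗ[ℚ] ℚ where
  toFun g := 2 * ∑ j, (y j : ℚ) * g (Sum.inl j) -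
    ∑ l, ((r (-(l + b)) : ℚ) - r l - r b) * g (Sum.inr l)
  map_add' g h := by
    simp only [Pi.add_apply, mul_add, Finset.sum_add_distrib]
    ring
  map_smul' c g := by
    simp only [Pi.smul_apply, smul_eq_mul, RingHom.id_apply, mul_sub, Finset.mul_sum]
    congr 1
    · refine Finset.sum_congr rfl fun j _ => ?_
      ring
    · refine Finset.sum_congr rfl fun j _ => ?_
      ring

private theorem funf_vecf (a b : Fin 3) (x y : Fin D → ℤ) :
    funf r b y (vecf a x) =
      ((2 * ip x y - ((r (-(a + b)) : ℤ) - r a - r b) : ℤ) : ℚ) := by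
  unfold funf vecf ip
  simp only [LinearMap.coe_mk, AddHom.coe_mk, Sum.elim_inl, Sum.elim_inr, mul_ite, mul_one,
    mul_zero, Finset.sum_ite_eq', Finset.mem_univ, if_true]
  push_cast
  congr 2
  refine Finset.sum_congr rfl fun j _ => ?_
  ring

theorem vc_hyp (hv : VInj r v) : (nbs (hyp r v)).vcDim ≤ D + 3 := by
  unfold Finset.vcDim
  refine Finset.sup_le fun S hS => ?_
  rw [mem_shatterer] at hS
  -- neighbourhoods realising traces
  have key : ∀ T ⊆ S, ∃ w : V, S ∩ nb (hyp r v) w = T := by
    intro T hT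
    obtain ⟨u, hu, hu'⟩ := hS hT
    unfold nbs at hu
    rw [mem_image] at hu
    obtain ⟨w, _, rfl⟩ := hu
    exact ⟨w, hu'⟩
  let e := S.equivFin.symm
  have hse : ∀ i : Fin S.card, (e i : V) ∈ S := fun i => (e i).2
  have lab : ∀ i : Fin S.card, ∃ (a : Fin 3) (x : Fin D → ℤ), (e i : V) = v a x ∧
      x ∈ Sph D (r a) := by
    intro i
    obtain ⟨w, hw⟩ := key {(e i : V)} (by
      rw [singleton_subset_iff]; exact hse i)
    have h1 : (e i : V) ∈ S ∩ nb (hyp r v) w := by
      rw [hw]; exact mem_singleton_self _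
    obtain ⟨a, b, x, y, _, h2, _, h3, _⟩ := nb_hyp (mem_inter.1 h1).2
    exact ⟨a, x, h2, h3⟩
  choose a x hax hx using lab
  have hmain := chain_card (ι := Fin D ⊕ Fin 3) (m := S.card) (fun i => vecf (a i) (x i)) ?_
  · rw [Fintype.card_sum, Fintype.card_fin, Fintype.card_fin] at hmain
    exact hmain
  intro k
  by_cases hk : ∃ i0, i0 < k
  · obtain ⟨i0, hi0⟩ := hk
    obtain ⟨w, hw⟩ := key ((univ.filter (fun i => i < k)).image (fun i => (e i : V))) (by
      intro u hu
      rw [mem_image] at hu
      obtain ⟨i, _, rfl⟩ := hu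
      exact hse i)
    have hlt : ∀ i < k, (e i : V) ∈ nb (hyp r v) w := by
      intro i hi
      have h1 : (e i : V) ∈ S ∩ nb (hyp r v) w := by
        rw [hw, mem_image]
        exact ⟨i, by rw [mem_filter]; exact ⟨mem_univ _, hi⟩, rfl⟩
      exact (mem_inter.1 h1).2
    have hnk : (e k : V) ∉ nb (hyp r v) w := by
      intro h
      have h1 : (e k : V) ∈ S ∩ nb (hyp r v) w := mem_inter.2 ⟨hse k, h⟩
      rw [hw, mem_image] at h1
      obtain ⟨i, hi, hik⟩ := h1
      rw [mem_filter] at hi
      have h2 : e i = e k := Subtype.ext hik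
      have h3 : i = k := e.injective h2
      rw [h3] at hi
      exact lt_irrefl _ hi.2
    obtain ⟨_, b, _, y, _, _, hwy, _, hy⟩ := nb_hyp (hlt i0 hi0)
    have hlt' : ∀ i < k, a i ≠ b ∧
        2 * ip (x i) y = (r (-(a i + b)) : ℤ) - r (a i) - r b := by
      intro i hi
      have h1 := hlt i hi
      rw [hax i, hwy] at h1
      have h2 : a i ≠ b := by
        intro h
        have hxi := hx i
        rw [h] at h1 hxi
        exact adj_same hv hxi hy h1
      exact ⟨h2, (adj_iff hv h2 (hx i) hy).1 h1⟩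
    by_cases hkb : a k = b
    · refine ⟨LinearMap.proj (Sum.inr b), ?_, ?_⟩
      · intro i hi
        have h1 := (hlt' i hi).1
        rw [LinearMap.proj_apply]
        unfold vecf
        rw [Sum.elim_inr, if_neg (fun h => h1 h.symm)]
      · rw [LinearMap.proj_apply]
        unfold vecf
        rw [Sum.elim_inr, if_pos hkb.symm]
        exact one_ne_zero
    · refine ⟨funf r b y, ?_, ?_⟩
      · intro i hi
        rw [funf_vecf, (hlt' i hi).2, sub_self, Int.cast_zero]
      · rw [funf_vecf]
        intro h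
        have h1 : 2 * ip (x k) y - ((r (-(a k + b)) : ℤ) - r (a k) - r b) = 0 := by
          exact_mod_cast h
        have h2 := (adj_iff hv hkb (hx k) hy).2 (sub_eq_zero.1 h1)
        rw [← hax k, ← hwy] at h2
        exact hnk h2
  · refine ⟨LinearMap.proj (Sum.inr (a k)), ?_, ?_⟩
    · intro i hi
      exact absurd ⟨i, hi⟩ hk
    · rw [LinearMap.proj_apply]
      unfold vecf
      rw [Sum.elim_inr, if_pos rfl]
      exact one_ne_zero

end Pool.Agent.RSV
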