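import Pool.Agent.RSV.NT
import Pool.Agent.RSV.CntB
import Pool.Agent.RSV.Pig
import Pool.Agent.RSV.SphF
import Pool.Agent.RSV.SphV
import Pool.Agent.RSV.Emb
import Pool.Agent.RSV.NumC

/-!
# RSV-AsC: Theorem C
-/

set_option autoImplicit false

namespace Pool.Agent.RSV

open Finset

theorem thmC {D n : ℕ} (hD : 1 ≤ D) (hn : Real.exp (12 * (D : ℝ) ^ 2) ≤ n) :
    ∃ H : Finset (Finset (Fin n)), Three H ∧ SixThree H ∧ (nbs H).vcDim ≤ D + 3 ∧
      (n : ℝ) ^ (2 - 7 / (D : ℝ)) ≤ H.card := by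
  obtain ⟨q, hq, hqn, hmain⟩ := numC hD hn
  obtain ⟨r, hr, hcard⟩ := exists_radii hD hq
  have h1 : ∀ k, (Sph D (r k)).card ≤ (64 * q) ^ D := fun k => card_Sph hq (hr k)
  have h2 : ∑ k, (Sph D (r k)).card ≤ n := by
    rw [Fin.sum_univ_three]
    have := h1 0
    have := h1 1
    have := h1 2
    omega
  have hn1 : 1 ≤ n := by
    have : 1 ≤ (64 * q) ^ D := Nat.one_le_pow _ _ (by omega)
    omega
  obtain ⟨v, hv⟩ := exists_VInj hn1 r h2
  refine ⟨hyp r v, hyp_three hv, sixThree_of_noTri (hyp_noTri hv), vc_hyp hv, ?_⟩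
  refine hmain _ ?_
  rw [hyp_card hv]
  exact hcard

end Pool.Agent.RSV
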