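import Pool.Agent.RSV.Defs

/-!
# Project RSV: the sphere hypergraph, definitions

The points are lattice points on three spheres around the origin of `ℤ^D`; the edges are the triples `x, y, z` of points on the
first, second, third sphere with `x + y + z = 0`. `v k x` is the vertex of the point `x` of the `k`-th sphere.
-/

set_option autoImplicit false

namespace Pool.Agent.RSV

open Finset

/-- the squared length -/
def sq {D : ℕ} (x : Fin D → ℤ) : ℤ := ∑ i, x i ^ 2

/-- the inner product -/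
def ip {D : ℕ} (x y : Fin D → ℤ) : ℤ := ∑ i, x i * y i

/-- the lattice points of squared length `r` -/
noncomputable def Sph (D r : ℕ) : Finset (Fin D → ℤ) :=
  (Fintype.piFinset fun _ : Fin D => Icc (-(r : ℤ)) r).filter (fun x => sq x = r)

/-- the triples of lattice points on the three spheres with sum zero -/
noncomputable def Cf (D : ℕ) (r : Fin 3 → ℕ) : Finset (Fin 3 → Fin D → ℤ) :=
  (Fintype.piFinset fun k => Sph D (r k)).filter (fun t => ∑ k, t k = 0)

/-- `v` is injective on the pairs `(k, x)` with `x` on the `k`-th sphere -/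
def VInj {V : Type*} {D : ℕ} (r : Fin 3 → ℕ) (v : Fin 3 → (Fin D → ℤ) → V) : Prop :=
  ∀ k l x y, x ∈ Sph D (r k) → y ∈ Sph D (r l) → v k x = v l y → k = l ∧ x = y

/-- the edge of a triple -/
def edge {V : Type*} [DecidableEq V] {D : ℕ} (v : Fin 3 → (Fin D → ℤ) → V)
    (t : Fin 3 → Fin D → ℤ) : Finset V :=
  univ.image (fun k => v k (t k))

/-- the sphere hypergraph -/
noncomputable def hyp {V : Type*} [DecidableEq V] {D : ℕ} (r : Fin 3 → ℕ) (v : Fin 3 → (Fin D → ℤ) → V) :
    Finset (Finset V) :=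
  (Cf D r).image (edge v)

theorem sq_nonneg' {D : ℕ} (x : Fin D → ℤ) : 0 ≤ sq x :=
  Finset.sum_nonneg fun _ _ => sq_nonneg _

theorem sq_coord {D : ℕ} (x : Fin D → ℤ) (i : Fin D) : x i ^ 2 ≤ sq x :=
  Finset.single_le_sum (f := fun i => x i ^ 2) (fun _ _ => sq_nonneg _) (mem_univ i)

theorem eq_zero_of_sq {D : ℕ} {x : Fin D → ℤ} (h : sq x = 0) : x = 0 := by
  funext i
  have h1 := sq_coord x i
  rw [h] at h1
  have h2 : x i ^ 2 = 0 := le_antisymm h1 (sq_nonneg _)
  exact pow_eq_zero_iff (two_ne_zero) |>.1 h2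

theorem sq_add {D : ℕ} (x y : Fin D → ℤ) : sq (x + y) = sq x + sq y + 2 * ip x y := by
  unfold sq ip
  rw [Finset.mul_sum, ← Finset.sum_add_distrib, ← Finset.sum_add_distrib]
  refine Finset.sum_congr rfl fun i _ => ?_
  rw [Pi.add_apply]; ring

theorem sq_neg {D : ℕ} (x : Fin D → ℤ) : sq (-x) = sq x := by
  unfold sq
  refine Finset.sum_congr rfl fun i _ => ?_
  rw [Pi.neg_apply]; ring

theorem ip_comm {D : ℕ} (x y : Fin D → ℤ) : ip x y = ip y x := by
  unfold ip
  exact Finset.sum_congr rfl fun i _ => mul_comm _ _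

theorem ip_add {D : ℕ} (x y z : Fin D → ℤ) : ip (x + y) z = ip x z + ip y z := by
  unfold ip
  rw [← Finset.sum_add_distrib]
  refine Finset.sum_congr rfl fun i _ => ?_
  rw [Pi.add_apply]; ring

theorem mem_Sph {D r : ℕ} {x : Fin D → ℤ} : x ∈ Sph D r ↔ sq x = r := by
  unfold Sph
  rw [mem_filter, Fintype.mem_piFinset]
  constructor
  · exact fun h => h.2
  · intro h
    refine ⟨fun i => ?_, h⟩
    rw [mem_Icc]
    have h1 := sq_coord x i
    rw [h] at h1
    constructor
    · nlinarith [sq_nonneg (x i), sq_nonneg (x i + 1)]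
    · nlinarith [sq_nonneg (x i), sq_nonneg (x i - 1)]

theorem mem_Cf {D : ℕ} {r : Fin 3 → ℕ} {t : Fin 3 → Fin D → ℤ} :
    t ∈ Cf D r ↔ (∀ k, t k ∈ Sph D (r k)) ∧ ∑ k, t k = 0 := by
  unfold Cf
  rw [mem_filter, Fintype.mem_piFinset]

theorem third_ne : ∀ a b : Fin 3, a ≠ b → -(a + b) ≠ a ∧ -(a + b) ≠ b := by decide

/-- the third index is `-(a + b)` -/
theorem sum_third {D : ℕ} (t : Fin 3 → Fin D → ℤ) {a b : Fin 3} (hab : a ≠ b) :
    ∑ k, t k = t a + t b + t (-(a + b)) := by
  have key : ∀ a b : Fin 3, a ≠ b → (univ : Finset (Fin 3)) = {a, b, -(a + b)} := by decide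
  obtain ⟨h1, h2⟩ := third_ne a b hab
  rw [key a b hab, sum_insert, sum_insert, sum_singleton, add_assoc]
  · rw [mem_singleton]; exact fun h => h2 h.symm
  · rw [mem_insert, mem_singleton]
    rintro (h | h)
    · exact hab h
    · exact h1 h.symm

theorem eq_third : ∀ a b c : Fin 3, a ≠ b → c ≠ a → c ≠ b → c = -(a + b) := by decide

end Pool.Agent.RSV
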