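import Mathlib

/-!
# Project RSV (MP_3cac6c_co): the (6,3) problem and the Vapnik-Chervonenkis dimension. Definitions.

A 3-graph on `Fin n` is a `Finset (Finset (Fin n))` all of whose members have three elements.
`SixThree H`: every set of six vertices contains fewer than three edges.
`nb H v`: the neighbours of `v` in the shadow graph of `H`.
-/

set_option autoImplicit false

namespace Pool.Agent.RSV

open Finset

variable {V : Type*} [DecidableEq V]

/-- all edges have three vertices -/
def Three (H : Finset (Finset V)) : Prop := ∀ e ∈ H, e.card = 3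

/-- every set of six vertices contains fewer than three edges -/
def SixThree (H : Finset (Finset V)) : Prop :=
  ∀ S : Finset V, S.card = 6 → (H.filter (fun e => e ⊆ S)).card < 3

/-- any two different edges have at most one common vertex -/
def Linear (H : Finset (Finset V)) : Prop :=
  ∀ e ∈ H, ∀ f ∈ H, e ≠ f → (e ∩ f).card ≤ 1

/-- any three different edges have together more than six vertices (used in the proofs; for `6 ≤ n` it is the same as
`SixThree`) -/
def NoTri (H : Finset (Finset V)) : Prop :=
  ∀ e ∈ H, ∀ f ∈ H, ∀ g ∈ H, e ≠ f → f ≠ g → e ≠ g → 6 < (e ∪ f ∪ g).card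

/-- the neighbours of `v` in the shadow graph -/
def nb [Fintype V] (H : Finset (Finset V)) (v : V) : Finset V :=
  univ.filter (fun u => u ≠ v ∧ ∃ e ∈ H, u ∈ e ∧ v ∈ e)

/-- the family of all neighbourhoods -/
def nbs [Fintype V] (H : Finset (Finset V)) : Finset (Finset V) := univ.image (nb H)

/-- the number of edges containing `v` -/
def deg (H : Finset (Finset V)) (v : V) : ℕ := (H.filter (fun e => v ∈ e)).card

/-- every edge of `H` has exactly one vertex in each of the pairwise disjoint sets `A`, `B`, `C` -/
def Tri (H : Finset (Finset V)) (A B C : Finset V) : Prop :=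
  Disjoint A B ∧ Disjoint B C ∧ Disjoint A C ∧
    ∀ e ∈ H, (e ∩ A).card = 1 ∧ (e ∩ B).card = 1 ∧ (e ∩ C).card = 1

/-- the traces on `C` of the neighbourhoods of the vertices of `B` -/
def tr [Fintype V] (H : Finset (Finset V)) (B C : Finset V) : Finset (Finset V) :=
  B.image (fun y => nb H y ∩ C)

end Pool.Agent.RSV
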