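import Mathlib

/-!
# RSV-NumD (1.1h): numerical estimates for the corollaries

PLAN. Write `L = log n`, `u = √L`, `n = exp L`, `n^a = exp (a L)` (`Real.rpow_def_of_pos`). `ev`: for `ε > 0` there is `n0` with `4 L ≤ exp (ε u)` and `K ≤ u` for all `n ≥ n0`
(`K` any given real): e.g. `exp (ε u) ≥ (ε u)^3/6` (`Real.pow_div_factorial_le_exp` or `Real.add_one_le_exp` cubed), so it is enough that `u ≥ 24/ε³`; and
`u ≥ K` follows from `n ≥ exp (K²)` (`n0 := ⌈exp (K'^2)⌉₊ + 2`).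
`numD1`: `c := 1/(2 (κ + 1))`, `ε := c`; `u ≥ 1`: `d + 1 ≤ (κ + 1) u`, `L/(d + 1) ≥ u/(κ + 1) = 2 c u`, `n^(2 - 1/(d+1)) = n² exp (-L/(d+1)) ≤ n² exp (-2 c u)`.
`numD2`: `κ' := min (κ/2) (1/4)`, `D := ⌊κ' u⌋₊`, `u ≥ K := max (2/κ') (6/κ)`: `D ≥ 1`, `D ≥ κ' u - 1 ≥ κ' u/2`, `12 D² ≤ 12 u²/16 ≤ L`, `D + 3 ≤ κ u/2 + 3 ≤ κ u`;
`7 L/D ≤ (14/κ') u`; `C := 14/κ'`.
`numD3`: `ε := 1`, `c := 1/(2 (A + 1))`, `K := 2 (A + 1)`: take logarithms in the hypothesis: `2 L - A u ≤ log (4 L) + 2 L - L/(d + 1)`, so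
`L/(d + 1) ≤ A u + log (4 L) ≤ (A + 1) u`, `d + 1 ≥ u/(A + 1)`, `d ≥ u/(A+1) - 1 ≥ u/(2 (A + 1))`.
-/

set_option autoImplicit false

namespace Pool.Agent.RSV

private theorem ev {ε : ℝ} (hε : 0 < ε) (K : ℝ) : ∃ n0 : ℕ, ∀ n : ℕ, n0 ≤ n →
    0 < (n : ℝ) ∧ 0 < Real.sqrt (Real.log n) ∧
      Real.log n = Real.sqrt (Real.log n) * Real.sqrt (Real.log n) ∧
      K ≤ Real.sqrt (Real.log n) ∧ 4 * Real.log n ≤ Real.exp (ε * Real.sqrt (Real.log n)) := by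
  obtain ⟨K', hK'⟩ : ∃ K' : ℝ, K' = max (max K 1) (24 / ε ^ 3) := ⟨_, rfl⟩
  have h1 : K ≤ K' := by
    rw [hK']
    exact (le_max_left _ _).trans (le_max_left _ _)
  have h2 : 1 ≤ K' := by
    rw [hK']
    exact (le_max_right _ _).trans (le_max_left _ _)
  have h3 : 24 / ε ^ 3 ≤ K' := by
    rw [hK']
    exact le_max_right _ _
  refine ⟨⌈Real.exp (K' ^ 2)⌉₊ + 2, ?_⟩
  intro n hn
  have hn1 : Real.exp (K' ^ 2) ≤ n := by
    refine (Nat.le_ceil _).trans ?_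
    have : ⌈Real.exp (K' ^ 2)⌉₊ ≤ n := by omega
    exact_mod_cast this
  have hn0 : (0 : ℝ) < n := lt_of_lt_of_le (Real.exp_pos _) hn1
  have hL : K' ^ 2 ≤ Real.log n := by
    rw [Real.le_log_iff_exp_le hn0]
    exact hn1
  have hu : K' ≤ Real.sqrt (Real.log n) := Real.le_sqrt_of_sq_le hL
  have hL0 : 0 ≤ Real.log n := (sq_nonneg _).trans hL
  have hsq : Real.log n = Real.sqrt (Real.log n) * Real.sqrt (Real.log n) :=
    (Real.mul_self_sqrt hL0).symm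
  obtain ⟨u, hud⟩ : ∃ u : ℝ, u = Real.sqrt (Real.log n) := ⟨_, rfl⟩
  rw [← hud] at hu hsq ⊢
  have hu0 : 0 < u := by linarith
  refine ⟨hn0, hu0, hsq, h1.trans hu, ?_⟩
  have h4 : 24 ≤ ε ^ 3 * u := by
    have h5 : 24 / ε ^ 3 ≤ u := h3.trans hu
    rw [div_le_iff₀ (by positivity)] at h5
    linarith
  have h5 := Real.pow_div_factorial_le_exp (ε * u) (by positivity) 3
  have h6 : ((Nat.factorial 3 : ℕ) : ℝ) = 6 := by norm_num [Nat.factorial]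
  rw [h6] at h5
  refine le_trans ?_ h5
  rw [le_div_iff₀ (by norm_num), hsq]
  have h7 : (ε * u) ^ 3 = (ε ^ 3 * u) * (u * u) := by ring
  rw [h7]
  have h8 := mul_le_mul_of_nonneg_right h4 (mul_self_nonneg u)
  linarith

private theorem sq_exp {n : ℝ} (hn : 0 < n) : n ^ 2 = Real.exp (2 * Real.log n) := by
  have h1 : Real.exp (2 * Real.log n) = Real.exp (Real.log n) * Real.exp (Real.log n) := by
    rw [← Real.exp_add]
    ring_nf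
  rw [h1, Real.exp_log hn]
  ring

theorem numD1 {κ : ℝ} (hκ : 0 < κ) : ∃ c > (0 : ℝ), ∃ n0 : ℕ, ∀ n : ℕ, n0 ≤ n → ∀ d : ℕ,
    (d : ℝ) ≤ κ * Real.sqrt (Real.log n) →
      4 * (n : ℝ) ^ (2 - 1 / ((d : ℝ) + 1)) * Real.log n ≤
        (n : ℝ) ^ 2 * Real.exp (-(c * Real.sqrt (Real.log n))) := by
  have hc : (0 : ℝ) < 1 / (2 * (κ + 1)) := by positivity
  refine ⟨1 / (2 * (κ + 1)), hc, ?_⟩
  obtain ⟨n0, h0⟩ := ev hc 1
  refine ⟨n0, ?_⟩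
  intro n hn d hd
  obtain ⟨hn0, hu0, hsq, hK, hexp⟩ := h0 n hn
  obtain ⟨u, hud⟩ : ∃ u : ℝ, u = Real.sqrt (Real.log n) := ⟨_, rfl⟩
  obtain ⟨L, hL⟩ : ∃ L : ℝ, L = Real.log n := ⟨_, rfl⟩
  rw [Real.rpow_def_of_pos hn0, sq_exp hn0]
  rw [← hud] at hd hu0 hsq hK hexp ⊢
  rw [← hL] at hsq hexp ⊢
  obtain ⟨c, hcd⟩ : ∃ c : ℝ, c = 1 / (2 * (κ + 1)) := ⟨_, rfl⟩
  rw [← hcd] at hexp hc ⊢
  have hd0 : (0 : ℝ) < (d : ℝ) + 1 := by positivity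
  have h1 : 2 * c * u ≤ L * (1 / ((d : ℝ) + 1)) := by
    have h2 : (d : ℝ) + 1 ≤ (κ + 1) * u := by linarith
    rw [mul_one_div, le_div_iff₀ hd0]
    have h3 : 2 * c * u * ((d : ℝ) + 1) ≤ 2 * c * u * ((κ + 1) * u) :=
      mul_le_mul_of_nonneg_left h2 (by positivity)
    have h4 : 2 * c * u * ((κ + 1) * u) = u * u := by
      rw [hcd]
      field_simp
    linarith
  have h5 : Real.exp (L * (2 - 1 / ((d : ℝ) + 1))) ≤ Real.exp (2 * L - 2 * c * u) := by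
    apply Real.exp_le_exp.2
    have : L * (2 - 1 / ((d : ℝ) + 1)) = 2 * L - L * (1 / ((d : ℝ) + 1)) := by ring
    linarith
  calc 4 * Real.exp (L * (2 - 1 / ((d : ℝ) + 1))) * L
      = Real.exp (L * (2 - 1 / ((d : ℝ) + 1))) * (4 * L) := by ring
    _ ≤ Real.exp (2 * L - 2 * c * u) * Real.exp (c * u) := by
        apply mul_le_mul h5 hexp _ (Real.exp_nonneg _)
        rw [hsq]
        positivity
    _ = Real.exp (2 * L) * Real.exp (-(c * u)) := by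
        rw [← Real.exp_add, ← Real.exp_add]
        ring_nf

theorem numD2 {κ : ℝ} (hκ : 0 < κ) : ∃ C > (0 : ℝ), ∃ n0 : ℕ, ∀ n : ℕ, n0 ≤ n → ∃ D : ℕ,
    1 ≤ D ∧ Real.exp (12 * (D : ℝ) ^ 2) ≤ n ∧ (D : ℝ) + 3 ≤ κ * Real.sqrt (Real.log n) ∧
      (n : ℝ) ^ 2 * Real.exp (-(C * Real.sqrt (Real.log n))) ≤ (n : ℝ) ^ (2 - 7 / (D : ℝ)) := by
  obtain ⟨k, hk⟩ : ∃ k : ℝ, k = min (κ / 2) (1 / 4) := ⟨_, rfl⟩
  have hk0 : 0 < k := by
    rw [hk]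
    exact lt_min (by positivity) (by norm_num)
  have hk1 : k ≤ κ / 2 := by
    rw [hk]
    exact min_le_left _ _
  have hk2 : k ≤ 1 / 4 := by
    rw [hk]
    exact min_le_right _ _
  refine ⟨14 / k, by positivity, ?_⟩
  obtain ⟨n0, h0⟩ := ev one_pos (max (2 / k) (6 / κ))
  refine ⟨n0, ?_⟩
  intro n hn
  obtain ⟨hn0, hu0, hsq, hK, -⟩ := h0 n hn
  obtain ⟨u, hud⟩ : ∃ u : ℝ, u = Real.sqrt (Real.log n) := ⟨_, rfl⟩
  rw [← hud] at hu0 hsq hK ⊢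
  have hK1 : 2 / k ≤ u := (le_max_left _ _).trans hK
  have hK2 : 6 / κ ≤ u := (le_max_right _ _).trans hK
  rw [div_le_iff₀ hk0] at hK1
  rw [div_le_iff₀ hκ] at hK2
  have hD1 : ((⌊k * u⌋₊ : ℕ) : ℝ) ≤ k * u := Nat.floor_le (by positivity)
  have hD2 : k * u < ((⌊k * u⌋₊ : ℕ) : ℝ) + 1 := Nat.lt_floor_add_one _
  obtain ⟨D, hD⟩ : ∃ D : ℕ, D = ⌊k * u⌋₊ := ⟨_, rfl⟩
  rw [← hD] at hD1 hD2
  have hD3 : (1 : ℝ) ≤ (D : ℝ) := by linarith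
  have hD0 : (0 : ℝ) < D := by linarith
  have hD4 : k * u / 2 ≤ (D : ℝ) := by linarith
  refine ⟨D, by exact_mod_cast hD3, ?_, ?_, ?_⟩
  · have h1 : (D : ℝ) ^ 2 ≤ (k * u) ^ 2 := pow_le_pow_left₀ hD0.le hD1 2
    have h2 : (k * u) ^ 2 ≤ (1 / 4 * u) ^ 2 :=
      pow_le_pow_left₀ (by positivity) (mul_le_mul_of_nonneg_right hk2 hu0.le) 2
    have h3 : 12 * (D : ℝ) ^ 2 ≤ Real.log n := by
      rw [hsq]
      have h4 : (1 / 4 * u) ^ 2 = u * u / 16 := by ring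
      rw [h4] at h2
      have h5 : 0 ≤ u * u := mul_self_nonneg u
      linarith
    calc Real.exp (12 * (D : ℝ) ^ 2) ≤ Real.exp (Real.log n) := Real.exp_le_exp.2 h3
      _ = n := Real.exp_log hn0
  · have h1 : k * u ≤ κ / 2 * u := mul_le_mul_of_nonneg_right hk1 hu0.le
    linarith
  · rw [Real.rpow_def_of_pos hn0, sq_exp hn0, ← Real.exp_add]
    apply Real.exp_le_exp.2
    have h1 : 7 / (D : ℝ) * (u * u) ≤ 14 / k * u := by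
      rw [div_mul_eq_mul_div, div_mul_eq_mul_div, div_le_div_iff₀ hD0 hk0]
      have h2 : 7 * (u * u) * k = 14 * u * (k * u / 2) := by ring
      rw [h2]
      exact mul_le_mul_of_nonneg_left hD4 (by positivity)
    have h2 : Real.log n * (2 - 7 / (D : ℝ)) = 2 * Real.log n - 7 / (D : ℝ) * Real.log n := by ring
    rw [h2]
    have h3 : 7 / (D : ℝ) * Real.log n = 7 / (D : ℝ) * (u * u) := by rw [← hsq]
    linarith

theorem numD3 {A : ℝ} (hA : 0 < A) : ∃ c > (0 : ℝ), ∃ n0 : ℕ, ∀ n : ℕ, n0 ≤ n → ∀ d : ℕ,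
    (n : ℝ) ^ 2 * Real.exp (-(A * Real.sqrt (Real.log n))) ≤
      4 * (n : ℝ) ^ (2 - 1 / ((d : ℝ) + 1)) * Real.log n →
      c * Real.sqrt (Real.log n) ≤ d := by
  refine ⟨1 / (2 * (A + 1)), by positivity, ?_⟩
  obtain ⟨n0, h0⟩ := ev one_pos (2 * (A + 1))
  refine ⟨n0, ?_⟩
  intro n hn d hd
  obtain ⟨hn0, hu0, hsq, hK, hexp⟩ := h0 n hn
  obtain ⟨u, hud⟩ : ∃ u : ℝ, u = Real.sqrt (Real.log n) := ⟨_, rfl⟩
  obtain ⟨L, hL⟩ : ∃ L : ℝ, L = Real.log n := ⟨_, rfl⟩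
  rw [Real.rpow_def_of_pos hn0, sq_exp hn0] at hd
  rw [← hud] at hd hu0 hsq hK hexp ⊢
  rw [← hL] at hsq hexp hd
  have hd0 : (0 : ℝ) < (d : ℝ) + 1 := by positivity
  have h1 : Real.exp (2 * L - A * u) ≤ Real.exp (L * (2 - 1 / ((d : ℝ) + 1)) + u) := by
    calc Real.exp (2 * L - A * u) = Real.exp (2 * L) * Real.exp (-(A * u)) := by
          rw [← Real.exp_add]
          ring_nf
      _ ≤ 4 * Real.exp (L * (2 - 1 / ((d : ℝ) + 1))) * L := hd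
      _ = Real.exp (L * (2 - 1 / ((d : ℝ) + 1))) * (4 * L) := by ring
      _ ≤ Real.exp (L * (2 - 1 / ((d : ℝ) + 1))) * Real.exp (1 * u) :=
          mul_le_mul_of_nonneg_left hexp (Real.exp_nonneg _)
      _ = Real.exp (L * (2 - 1 / ((d : ℝ) + 1)) + u) := by
          rw [one_mul, ← Real.exp_add]
  have h2 := Real.exp_le_exp.1 h1
  have h3 : L * (1 / ((d : ℝ) + 1)) ≤ (A + 1) * u := by
    have h4 : L * (2 - 1 / ((d : ℝ) + 1)) = 2 * L - L * (1 / ((d : ℝ) + 1)) := by ring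
    linarith
  rw [mul_one_div, div_le_iff₀ hd0, hsq] at h3
  have h5 : u ≤ (A + 1) * ((d : ℝ) + 1) := by
    have h6 : u * u ≤ u * ((A + 1) * ((d : ℝ) + 1)) := by linarith
    exact le_of_mul_le_mul_left h6 hu0
  have h7 : u / (2 * (A + 1)) ≤ d := by
    rw [div_le_iff₀ (by positivity)]
    linarith
  have h8 : 1 / (2 * (A + 1)) * u = u / (2 * (A + 1)) := by ring
  rw [h8]
  exact h7

end Pool.Agent.RSV
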