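import Pool.Agent.RSV.AsA
import Pool.Agent.RSV.AsB
import Pool.Agent.RSV.AsC
import Pool.Agent.RSV.NumD

/-!
# Project RSV: main theorem
-/

set_option autoImplicit false

namespace Pool.Agent.RSV

open Finset

theorem corD1 {κ : ℝ} (hκ : 0 < κ) : ∃ c > (0 : ℝ), ∃ C > (0 : ℝ), ∃ n0 : ℕ, ∀ n : ℕ, n0 ≤ n →
    (∀ H : Finset (Finset (Fin n)), Three H → SixThree H →
      ((nbs H).vcDim : ℝ) ≤ κ * Real.sqrt (Real.log n) →
      (H.card : ℝ) ≤ (n : ℝ) ^ 2 * Real.exp (-(c * Real.sqrt (Real.log n)))) ∧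
    ∃ H : Finset (Finset (Fin n)), Three H ∧ SixThree H ∧
      ((nbs H).vcDim : ℝ) ≤ κ * Real.sqrt (Real.log n) ∧
      (n : ℝ) ^ 2 * Real.exp (-(C * Real.sqrt (Real.log n))) ≤ H.card := by
  obtain ⟨c, hc, n1, h1⟩ := numD1 hκ
  obtain ⟨C, hC, n2, h2⟩ := numD2 hκ
  refine ⟨c, hc, C, hC, max 2 (max n1 n2), fun n hn => ?_⟩
  have hn2 : 2 ≤ n := le_trans (le_max_left _ _) hn
  have hn' : max n1 n2 ≤ n := le_trans (le_max_right _ _) hn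
  have hnn1 : n1 ≤ n := le_trans (le_max_left _ _) hn'
  have hnn2 : n2 ≤ n := le_trans (le_max_right _ _) hn'
  refine ⟨fun H h3 h63 hd => ?_, ?_⟩
  · exact le_trans (thmA hn2 h3 h63 le_rfl) (h1 n hnn1 _ hd)
  · obtain ⟨D, hD, hD2, hD3, hD4⟩ := h2 n hnn2
    obtain ⟨H, h3, h63, hvc, hcard⟩ := thmC hD hD2
    refine ⟨H, h3, h63, ?_, le_trans hD4 hcard⟩
    refine le_trans ?_ hD3
    exact_mod_cast hvc

theorem corD2 {A : ℝ} (hA : 0 < A) : ∃ c > (0 : ℝ), ∃ n0 : ℕ, ∀ n : ℕ, n0 ≤ n →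
    ∀ H : Finset (Finset (Fin n)), Three H → SixThree H →
      (n : ℝ) ^ 2 * Real.exp (-(A * Real.sqrt (Real.log n))) ≤ H.card →
      c * Real.sqrt (Real.log n) ≤ (nbs H).vcDim := by
  obtain ⟨c, hc, n1, h1⟩ := numD3 hA
  refine ⟨c, hc, max 2 n1, fun n hn H h3 h63 hH => ?_⟩
  have hn2 : 2 ≤ n := le_trans (le_max_left _ _) hn
  have hnn1 : n1 ≤ n := le_trans (le_max_right _ _) hn
  exact h1 n hnn1 _ (le_trans hH (thmA hn2 h3 h63 le_rfl))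

end Pool.Agent.RSV
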