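import Pool.Agent.RSV.Main

/-!
The (6,3) problem for 3-graphs whose shadow graph has small Vapnik-Chervonenkis dimension.

`nbs H` is the family of the neighbourhoods of the vertices in the shadow graph of `H`. First part: for every `κ > 0` and
all large `n`, the largest number of edges of a (6,3)-free 3-graph `H` on `n` vertices with VC-dimension at most
`κ √(log n)` is `n² exp (-Θ(√(log n)))`, which is the size of the Behrend type constructions. Second part: every (6,3)-free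
3-graph with at least `n² exp (-A √(log n))` edges has VC-dimension at least `c √(log n)`. The third and the fourth part
are the bounds for each single value of the dimension.
-/

namespace Pool.Agent.RSV.SmallVCDimensionOld

open Pool.Agent.RSV Finset

theorem result :
    (∀ κ : ℝ, 0 < κ → ∃ c > (0 : ℝ), ∃ C > (0 : ℝ), ∃ n0 : ℕ, ∀ n : ℕ, n0 ≤ n →
      (∀ H : Finset (Finset (Fin n)), Three H → SixThree H →
        ((nbs H).vcDim : ℝ) ≤ κ * √(Real.log n) →
        (H.card : ℝ) ≤ (n : ℝ) ^ 2 * Real.exp (-(c * √(Real.log n)))) ∧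
      ∃ H : Finset (Finset (Fin n)), Three H ∧ SixThree H ∧
        ((nbs H).vcDim : ℝ) ≤ κ * √(Real.log n) ∧
        (n : ℝ) ^ 2 * Real.exp (-(C * √(Real.log n))) ≤ H.card) ∧
    (∀ A : ℝ, 0 < A → ∃ c > (0 : ℝ), ∃ n0 : ℕ, ∀ n : ℕ, n0 ≤ n →
      ∀ H : Finset (Finset (Fin n)), Three H → SixThree H →
        (n : ℝ) ^ 2 * Real.exp (-(A * √(Real.log n))) ≤ H.card →
        c * √(Real.log n) ≤ (nbs H).vcDim) ∧
    (∀ n d : ℕ, 2 ≤ n → ∀ H : Finset (Finset (Fin n)), Three H → SixThree H →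
      (nbs H).vcDim ≤ d → (H.card : ℝ) ≤ 4 * (n : ℝ) ^ (2 - 1 / ((d : ℝ) + 1)) * Real.log n) ∧
    (∀ n D : ℕ, 1 ≤ D → Real.exp (12 * (D : ℝ) ^ 2) ≤ n →
      ∃ H : Finset (Finset (Fin n)), Three H ∧ SixThree H ∧ (nbs H).vcDim ≤ D + 3 ∧
        (n : ℝ) ^ (2 - 7 / (D : ℝ)) ≤ H.card) :=
  ⟨fun _ hκ => corD1 hκ, fun _ hA => corD2 hA, fun _ _ hn _ h3 h63 hd => thmA hn h3 h63 hd,
    fun _ _ hD hn => thmC hD hn⟩

end Pool.Agent.RSV.SmallVCDimensionOld
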